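import Pool.Agent.MGE.Defs
/-!
VV (90 lines). Coordinates, norms, vertices.
PROOF. pt is WithLp.toLp 2 ![a,b,c]; inner: PiLp.inner_apply, Fin.sum_univ_three; norms: EuclideanSpace.norm_eq / real_norm_sq_eq.
Write c = cc = 1/√2, so cc^2 = 1/2. For vv use Fin 4 case analysis (fin_cases) and simp [vv].
-/
set_option autoImplicit false

open MeasureTheory Set Metric Pool.Agent.MEIS Pool.Agent.MSQ

namespace Pool.Agent.MGE

theorem cc_sq : cc ^ 2 = 1 / 2 := by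
  unfold cc
  rw [div_pow, Real.sq_sqrt (by norm_num)]
  norm_num
theorem cc_pos : 0 < cc := by
  unfold cc
  positivity
theorem pt0 (a b c : ℝ) : pt a b c 0 = a := by rfl
theorem pt1 (a b c : ℝ) : pt a b c 1 = b := by rfl
theorem pt2 (a b c : ℝ) : pt a b c 2 = c := by rfl
theorem pt_eta (x : E) : pt (x 0) (x 1) (x 2) = x := by
  ext i
  fin_cases i <;> rfl
theorem inner_pt (x : E) (a b c : ℝ) : inner ℝ x (pt a b c) = x 0 * a + x 1 * b + x 2 * c := by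
  rw [PiLp.inner_apply, Fin.sum_univ_three, pt0, pt1, pt2]
  simp [mul_comm]
theorem norm_pt (a b c : ℝ) : ‖pt a b c‖ = √(a ^ 2 + b ^ 2 + c ^ 2) := by
  rw [EuclideanSpace.norm_eq, Fin.sum_univ_three, pt0, pt1, pt2]
  simp
theorem smul_pt (t a b c : ℝ) : t • pt a b c = pt (t * a) (t * b) (t * c) := by
  ext i
  fin_cases i <;> simp [pt]
theorem neg_pt (a b c : ℝ) : -pt a b c = pt (-a) (-b) (-c) := by
  ext i
  fin_cases i <;> simp [pt]
theorem P_ne (z : ℝ × ℝ) : P z ≠ 0 := by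
  intro h
  have h1 : P z 2 = (0 : E) 2 := by rw [h]
  simp [P, pt2] at h1
theorem norm_P (z : ℝ × ℝ) : ‖P z‖ = lf z := by
  rw [P, norm_pt, lf]
  congr 1
  ring
theorem lf_pos (z : ℝ × ℝ) : 0 < lf z := by
  unfold lf
  positivity
theorem continuous_P : Continuous P := by
  unfold P pt
  refine (PiLp.continuous_toLp 2 _).comp (continuous_pi fun i => ?_)
  fin_cases i
  · exact continuous_fst
  · exact continuous_snd
  · exact continuous_const
theorem inner_vv0 (x : E) : inner ℝ x (vv 0) = x 0 / 2 + x 2 * (cc / 2) := by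
  change inner ℝ x (pt (1 / 2) 0 (cc / 2)) = _
  rw [inner_pt]
  ring
theorem inner_vv1 (x : E) : inner ℝ x (vv 1) = -(x 0 / 2) + x 2 * (cc / 2) := by
  change inner ℝ x (pt (-1 / 2) 0 (cc / 2)) = _
  rw [inner_pt]
  ring
theorem inner_vv2 (x : E) : inner ℝ x (vv 2) = x 1 / 2 - x 2 * (cc / 2) := by
  change inner ℝ x (pt 0 (1 / 2) (-cc / 2)) = _
  rw [inner_pt]
  ring
theorem inner_vv3 (x : E) : inner ℝ x (vv 3) = -(x 1 / 2) - x 2 * (cc / 2) := by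
  change inner ℝ x (pt 0 (-1 / 2) (-cc / 2)) = _
  rw [inner_pt]
  ring
private theorem vv_gram (i j : Fin 4) : inner ℝ (vv i) (vv j) = if i = j then (3 / 8 : ℝ) else -(1 / 8) := by
  have h := cc_sq
  have e0 : inner ℝ (vv i) (vv 0) = vv i 0 / 2 + vv i 2 * (cc / 2) := inner_vv0 _
  have e1 : inner ℝ (vv i) (vv 1) = -(vv i 0 / 2) + vv i 2 * (cc / 2) := inner_vv1 _
  have e2 : inner ℝ (vv i) (vv 2) = vv i 1 / 2 - vv i 2 * (cc / 2) := inner_vv2 _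
  have e3 : inner ℝ (vv i) (vv 3) = -(vv i 1 / 2) - vv i 2 * (cc / 2) := inner_vv3 _
  have a0 : vv 0 0 = 1 / 2 ∧ vv 0 1 = 0 ∧ vv 0 2 = cc / 2 := ⟨rfl, rfl, rfl⟩
  have a1 : vv 1 0 = -1 / 2 ∧ vv 1 1 = 0 ∧ vv 1 2 = cc / 2 := ⟨rfl, rfl, rfl⟩
  have a2 : vv 2 0 = 0 ∧ vv 2 1 = 1 / 2 ∧ vv 2 2 = -cc / 2 := ⟨rfl, rfl, rfl⟩
  have a3 : vv 3 0 = 0 ∧ vv 3 1 = -1 / 2 ∧ vv 3 2 = -cc / 2 := ⟨rfl, rfl, rfl⟩
  have key : ∀ j : Fin 4, j = 0 ∨ j = 1 ∨ j = 2 ∨ j = 3 := by decide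
  rcases key j with rfl | rfl | rfl | rfl <;> rcases key i with rfl | rfl | rfl | rfl <;>
    simp only [e0, e1, e2, e3, a0.1, a0.2.1, a0.2.2, a1.1, a1.2.1, a1.2.2, a2.1, a2.2.1, a2.2.2, a3.1, a3.2.1,
      a3.2.2, if_true] <;>
    first
      | (rw [if_neg (by decide)]; linear_combination (1 / 4 : ℝ) * h)
      | (rw [if_neg (by decide)]; linear_combination (-(1 / 4) : ℝ) * h)
      | linear_combination (1 / 4 : ℝ) * h

theorem vv_sub_norm {i j : Fin 4} (h : i ≠ j) : ‖vv i - vv j‖ = 1 := by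
  have h1 : ‖vv i - vv j‖ ^ 2 = 1 := by
    rw [← real_inner_self_eq_norm_sq, inner_sub_left, inner_sub_right, inner_sub_right, vv_gram, vv_gram, vv_gram,
      vv_gram, if_pos rfl, if_pos rfl, if_neg h, if_neg h.symm]
    norm_num
  have h2 : 0 ≤ ‖vv i - vv j‖ := norm_nonneg _
  nlinarith
theorem vv_sub_inner {i j : Fin 4} (h : i ≠ j) : inner ℝ (vv i - vv j) (vv i) = 1 / 2 := by
  rw [inner_sub_left, vv_gram, vv_gram, if_pos rfl, if_neg h.symm]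
  norm_num
theorem vv_sub_inner' {i j k : Fin 4} (h : k ≠ i) (h' : k ≠ j) :
    inner ℝ (vv i - vv j) (vv k) = 0 := by
  rw [inner_sub_left, vv_gram, vv_gram, if_neg h.symm, if_neg h'.symm]
  norm_num
theorem vv_norm_sq (i : Fin 4) : ‖vv i‖ ^ 2 = 3 / 8 := by
  have h := cc_sq
  rw [← real_inner_self_eq_norm_sq]
  fin_cases i
  · change inner ℝ (vv 0) (vv 0) = _
    rw [inner_vv0]
    change (1 / 2 : ℝ) / 2 + (cc / 2) * (cc / 2) = 3 / 8
    linear_combination (1 / 4 : ℝ) * h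
  · change inner ℝ (vv 1) (vv 1) = _
    rw [inner_vv1]
    change -((-1 / 2 : ℝ) / 2) + (cc / 2) * (cc / 2) = 3 / 8
    linear_combination (1 / 4 : ℝ) * h
  · change inner ℝ (vv 2) (vv 2) = _
    rw [inner_vv2]
    change (1 / 2 : ℝ) / 2 - (-cc / 2) * (cc / 2) = 3 / 8
    linear_combination (1 / 4 : ℝ) * h
  · change inner ℝ (vv 3) (vv 3) = _
    rw [inner_vv3]
    change -((-1 / 2 : ℝ) / 2) - (-cc / 2) * (cc / 2) = 3 / 8
    linear_combination (1 / 4 : ℝ) * h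
theorem vv_sum : vv 0 + vv 1 + vv 2 + vv 3 = 0 := by
  ext i
  fin_cases i
  · change (1 / 2 : ℝ) + (-1 / 2) + 0 + 0 = 0
    ring
  · change (0 : ℝ) + 0 + 1 / 2 + (-1 / 2) = 0
    ring
  · change (cc / 2 : ℝ) + cc / 2 + (-cc / 2) + (-cc / 2) = 0
    ring

end Pool.Agent.MGE
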