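import Pool.Agent.MGE.Defs
import Pool.Agent.MEIS.SMA
import Pool.Agent.MEIS.HOM
import Pool.Agent.MEIS.PAR
import Pool.Agent.MEIS.GRD
import Pool.Agent.MEIS.PTW
import Pool.Agent.MGE.VV
/-!
EDN (60 lines). ed is continuous, of degree 0, even and nonnegative.
PROOF. Sm 0: sm_sg (od_sm), norm. Hom 0: hom_sg of degree -2 for od G (Hom 1, see ident in IDB/HOM) times ‖x‖^2. Even:
sg_odd (module PAR; od_odd) . Nonnegative: reduce to the unit vector x/‖x‖ by Hom 0, then pt_le of PTW: sg (od G) u ≤ 1/4.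
-/
set_option autoImplicit false

open MeasureTheory Set Metric Pool.Agent.MEIS Pool.Agent.MSQ

namespace Pool.Agent.MGE

theorem ed_sm {G : E → ℝ} {R τ : ℝ} (h : SB G R τ) : Sm 0 (ed G) :=
  sm_sub (sm_const 0 (1 / 4)) (sm_mul (sm_pow (sm_norm 0) 2) (sm_sg (n := 0) (sm_mono (od_sm h) (by norm_num))))

theorem ed_hom {G : E → ℝ} {R τ : ℝ} (h : SB G R τ) : Hom 0 (ed G) := by
  intro t ht x hx
  have h1 := hom_sg (sm_mono (od_sm h) (by norm_num)) (od_hom h) t ht x hx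
  have ht0 : t ≠ 0 := ht.ne'
  have h2 : t ^ (-2 : ℤ) = (t ^ 2)⁻¹ := by
    rw [zpow_neg]
    norm_cast
  unfold ed
  rw [h1, norm_smul, Real.norm_eq_abs, abs_of_pos ht, h2, zpow_zero, one_mul]
  field_simp

theorem ed_even {G : E → ℝ} {R τ : ℝ} (h : SB G R τ) (x : E) : ed G (-x) = ed G x := by
  unfold ed
  rw [sg_odd (fun x => od_odd h x), norm_neg]

theorem ed_nonneg {G : E → ℝ} {R τ : ℝ} (h : SB G R τ) (hτ : 0 ≤ τ) {x : E} (hx : x ≠ 0) :
    0 ≤ ed G x := by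
  have hn : 0 < ‖x‖ := norm_pos_iff.2 hx
  have h1 := ed_hom h (‖x‖⁻¹) (inv_pos.2 hn) x hx
  rw [zpow_zero, one_mul] at h1
  have hu : ‖‖x‖⁻¹ • x‖ = 1 := by
    rw [norm_smul, Real.norm_eq_abs, abs_of_pos (inv_pos.2 hn)]
    exact inv_mul_cancel₀ hn.ne'
  rw [← h1]
  unfold ed
  rw [hu]
  have h2 := pt_le h hτ hu
  linarith

end Pool.Agent.MGE
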