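import Pool.Agent.MGE.Defs
import Pool.Agent.MEIS.SMA
import Pool.Agent.MEIS.HOM
import Pool.Agent.MEIS.SIA
import Pool.Agent.MEIS.GRD
import Pool.Agent.MEIS.IDB
import Pool.Agent.MEIS.VFO
import Pool.Agent.MEIS.COV
import Pool.Agent.MGE.EDN
/-!
GVO (60 lines). Volume of the smooth body through SI (ed G).
PROOF. volume_body_ge and vol_formula: volume ≥ π/6 + (1/4) SI (g lap g), g = od G; ident_J0: SI (g lap g) = 2 SI (sg g)
(SI_sub, SI_cmul). On the sphere ed G = 1/4 - sg g, so SI (ed G) = π - SI (sg g) (SI_congr, SI_sub, SI_const).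
π/6 + (1/2)(π - SI (ed G)) = 2π/3 - (1/2) SI (ed G).
-/
set_option autoImplicit false

open MeasureTheory Set Metric Pool.Agent.MEIS Pool.Agent.MSQ

namespace Pool.Agent.MGE

theorem volume_ge_ed {G : E → ℝ} {R τ : ℝ} (h : SB G R τ) (hτ : 0 < τ) (hR : R < 1) :
    ENNReal.ofReal (2 * Real.pi / 3 - 1 / 2 * SI (ed G)) ≤ volume (Body G) := by
  have hg := od_sm h
  have hsg : Sm 0 (sg (od G)) := sm_mono (sm_sg (n := 1) hg) (Nat.zero_le 1)
  have hlap : Sm 0 (lap (od G)) := sm_mono (sm_lap (n := 1) hg) (Nat.zero_le 1)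
  have hg0 : Sm 0 (od G) := sm_mono hg (Nat.zero_le 3)
  have h1 := ident_J0 hg (od_hom h)
  rw [SI_sub (sm_cmul 2 hsg) (sm_mul hg0 hlap), SI_cmul] at h1
  have h2 : SI (ed G) = Real.pi - SI (sg (od G)) := by
    have h3 : SI (ed G) = SI (fun x => (1 / 4 : ℝ) - sg (od G) x) := by
      refine SI_congr fun x hx => ?_
      rw [ed, hx]
      ring
    rw [h3, SI_sub (sm_const 0 (1 / 4)) hsg, SI_const]
    ring
  have h4 := vol_formula h
  have h5 : 2 * Real.pi / 3 - 1 / 2 * SI (ed G) = (1 / 3) * SI (fun x => G x * sg G x) := by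
    rw [h4, h2]
    linarith
  rw [h5]
  exact volume_body_ge h hτ hR

end Pool.Agent.MGE
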