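import Pool.Agent.MGE.Defs
import Pool.Agent.MEIS.TRN
/-!
ISO (60 lines). Constant width and volume under linear isometries.
PROOF. ne, cpt, cvx: images under a continuous linear map. wid: <φ x, u> = <x, φ⁻¹ u> (φ.inner_map_map), so the two sets of
inner products agree with those for φ⁻¹ u, a unit vector. volume: φ.measurePreserving, or Measure.addHaar_image_linearMap /
LinearIsometryEquiv.volume_image? (measurePreserving.measure_preimage applied to φ.symm, image = preimage of symm).
-/
set_option autoImplicit false

open MeasureTheory Set Metric Pool.Agent.MEIS Pool.Agent.MSQ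

namespace Pool.Agent.MGE

theorem CW_iso {C : Set E} (h : CW C) (φ : E ≃ₗᵢ[ℝ] E) : CW (φ '' C) := by
  refine ⟨h.ne.image _, h.cpt.image φ.continuous, ?_, ?_⟩
  · exact h.cvx.linear_image (φ.toLinearEquiv : E →ₗ[ℝ] E)
  · intro u hu
    have h3 : (fun x : E => @inner ℝ E _ x u) '' (φ '' C)
        = (fun x : E => @inner ℝ E _ x (φ.symm u)) '' C := by
      rw [Set.image_image]
      apply Set.image_congr
      intro a _
      have := φ.inner_map_map a (φ.symm u)
      rw [φ.apply_symm_apply] at this
      exact this
    rw [h3]
    exact h.wid _ (by rw [φ.symm.norm_map]; exact hu)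

theorem volume_iso (C : Set E) (hC : MeasurableSet C) (φ : E ≃ₗᵢ[ℝ] E) : volume (φ '' C) = volume C := by
  have h1 : φ '' C = φ.symm ⁻¹' C := by
    have := φ.toEquiv.image_eq_preimage_symm C
    exact this
  rw [h1]
  exact φ.symm.measurePreserving.measure_preimage hC.nullMeasurableSet

end Pool.Agent.MGE
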