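import Pool.Agent.MGE.Defs
import Pool.Agent.MEIS.SMA
import Pool.Agent.MEIS.HOM
import Pool.Agent.MEIS.PDR
import Pool.Agent.MEIS.GRD
import Pool.Agent.MGE.VV
/-!
INV (150 lines). Invariance of sg, ed, SB, TG under linear isometries.
PROOF. Let φ be a linear isometry, e_i = single i 1, O_{ji} = (φ e_i) j. Chain rule: for f differentiable at φ x,
pd i (f ∘ φ) x = fderiv f (φ x) (φ e_i) = ∑ j, O_{ji} (pd j f)(φ x) (fderiv_comp, fderiv_pd of module PDR). Apply it twice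
(pd_congr of PDR to rewrite pd k (f∘φ) near x, sum and constant rules): pd i (pd k (f∘φ)) x = ∑ j l, O_{ji} O_{lk} B_{jl},
B_{jl} = pd j (pd l f) (φ x). Orthogonality ∑_i O_{ji} O_{li} = δ_{jl} (matrix of an isometry: ∑_i (φ e_i)_j (φ e_i)_l
= ∑_i <φ e_i, e_j><φ e_i, e_l> = ∑_i <e_i, φ⁻¹ e_j><e_i, φ⁻¹ e_l> = <φ⁻¹ e_j, φ⁻¹ e_l> = δ). Hence lap and hs are invariant
(∑_{ik} B'_{ik}^2 = ∑ B_{jl} B_{j'l'} δ_{jj'} δ_{ll'}). od (G ∘ φ) = od G ∘ φ since φ preserves norms; ed by sg_comp (for Sm 2 (od G)).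
SB_comp: composition of Sm with a linear equivalence (maps {0}ᶜ to itself); the rest by map_add, map_smul, norm_map.
TG_comp: inner x (vv i) = inner (φ x) (φ (vv i)) = inner (φ x) (vv j).
-/
set_option autoImplicit false

open MeasureTheory Set Metric Pool.Agent.MEIS Pool.Agent.MSQ

namespace Pool.Agent.MGE

private theorem inv_sm {n : ℕ} {f : E → ℝ} (hf : Sm n f) (φ : E ≃ₗᵢ[ℝ] E) :
    Sm n (fun y => f (φ y)) := by
  have h1 : ContDiff ℝ n (fun y : E => φ y) := φ.contDiff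
  refine ContDiffOn.comp (t := ({0}ᶜ : Set E)) (g := f) hf h1.contDiffOn ?_
  intro x hx
  simpa using hx

private theorem inv_pd (f : E → ℝ) (φ : E ≃ₗᵢ[ℝ] E) (i : Fin 3) (x : E) :
    pd i (fun y => f (φ y)) x = ∑ j, (φ (EuclideanSpace.single i (1 : ℝ))) j * pd j f (φ x) := by
  have h : fderiv ℝ (f ∘ (φ.toContinuousLinearEquiv : E ≃L[ℝ] E)) x = _ :=
    (φ.toContinuousLinearEquiv : E ≃L[ℝ] E).comp_right_fderiv
  have h2 : fderiv ℝ (fun y => f (φ y)) x =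
      (fderiv ℝ f (φ x)).comp (φ.toContinuousLinearEquiv : E →L[ℝ] E) := h
  rw [← fderiv_pd]
  unfold pd
  rw [h2]
  rfl

/-- the matrix of second derivatives -/
private noncomputable def HM (f : E → ℝ) (x : E) : Matrix (Fin 3) (Fin 3) ℝ := fun i k => pd i (pd k f) x

private noncomputable def OM (φ : E ≃ₗᵢ[ℝ] E) : Matrix (Fin 3) (Fin 3) ℝ :=
  fun j i => (φ (EuclideanSpace.single i (1 : ℝ))) j

private theorem OM_orth (φ : E ≃ₗᵢ[ℝ] E) : (OM φ) * (OM φ).transpose = 1 := by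
  rw [mul_eq_one_comm]
  ext i k
  rw [Matrix.mul_apply]
  have h1 : ∑ l, (OM φ).transpose i l * OM φ l k =
      inner ℝ (φ (EuclideanSpace.single k (1 : ℝ))) (φ (EuclideanSpace.single i (1 : ℝ))) := by
    rw [grd_inner]
    rfl
  rw [h1, LinearIsometryEquiv.inner_map_map, Matrix.one_apply]
  by_cases hik : i = k
  · subst hik
    simp
  · rw [if_neg hik, EuclideanSpace.inner_single_left]
    simp [hik]

private theorem HM_comp {f : E → ℝ} (hf : Sm 2 f) (φ : E ≃ₗᵢ[ℝ] E) {x : E} (hx : x ≠ 0) :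
    HM (fun y => f (φ y)) x = (OM φ).transpose * HM f (φ x) * OM φ := by
  ext i k
  have h1 : pd k (fun y => f (φ y)) = fun y => ∑ j ∈ Finset.univ, OM φ j k * pd j f (φ y) :=
    funext fun y => inv_pd f φ k y
  have h2 : ∀ j : Fin 3, Sm 1 (fun y => pd j f (φ y)) := fun j => inv_sm (sm_pd (n := 1) hf j) φ
  show pd i (pd k (fun y => f (φ y))) x = _
  rw [h1, pd_sum Finset.univ (f := fun j y => OM φ j k * pd j f (φ y)) (fun j _ => sm_cmul _ (h2 j)) hx,
    Matrix.mul_apply]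
  refine Finset.sum_congr rfl fun j _ => ?_
  rw [pd_cmul _ (h2 j) hx, Matrix.mul_apply, inv_pd (pd j f) φ i x, mul_comm]
  rfl

private theorem lap_HM (f : E → ℝ) (x : E) : lap f x = (HM f x).trace := rfl

private theorem hs_HM (f : E → ℝ) (x : E) : hs f x = (HM f x * (HM f x).transpose).trace := by
  unfold hs Matrix.trace
  refine Finset.sum_congr rfl fun i _ => ?_
  rw [Matrix.diag_apply, Matrix.mul_apply]
  refine Finset.sum_congr rfl fun j _ => ?_
  rw [sq]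
  rfl

private theorem inv_lap {f : E → ℝ} (hf : Sm 2 f) (φ : E ≃ₗᵢ[ℝ] E) {x : E} (hx : x ≠ 0) :
    lap (fun y => f (φ y)) x = lap f (φ x) := by
  rw [lap_HM, lap_HM, HM_comp hf φ hx, Matrix.trace_mul_cycle, OM_orth, Matrix.one_mul]

private theorem inv_hs {f : E → ℝ} (hf : Sm 2 f) (φ : E ≃ₗᵢ[ℝ] E) {x : E} (hx : x ≠ 0) :
    hs (fun y => f (φ y)) x = hs f (φ x) := by
  rw [hs_HM, hs_HM, HM_comp hf φ hx]
  have h1 : (OM φ).transpose * HM f (φ x) * OM φ * ((OM φ).transpose * HM f (φ x) * OM φ).transpose =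
      (OM φ).transpose * (HM f (φ x) * (HM f (φ x)).transpose) * OM φ := by
    rw [Matrix.transpose_mul, Matrix.transpose_mul, Matrix.transpose_transpose]
    calc (OM φ).transpose * HM f (φ x) * OM φ * ((OM φ).transpose * ((HM f (φ x)).transpose * OM φ))
        = (OM φ).transpose * HM f (φ x) * (OM φ * (OM φ).transpose) * ((HM f (φ x)).transpose * OM φ) := by
          simp only [Matrix.mul_assoc]
      _ = _ := by
          rw [OM_orth, Matrix.mul_one]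
          simp only [Matrix.mul_assoc]
  rw [h1, Matrix.trace_mul_cycle, OM_orth, Matrix.one_mul]

theorem sg_comp {f : E → ℝ} (hf : Sm 2 f) (φ : E ≃ₗᵢ[ℝ] E) {x : E} (hx : x ≠ 0) :
    sg (fun y => f (φ y)) x = sg f (φ x) := by
  unfold sg
  rw [inv_lap hf φ hx, inv_hs hf φ hx]

theorem SB_comp {G : E → ℝ} {R τ : ℝ} (h : SB G R τ) (φ : E ≃ₗᵢ[ℝ] E) :
    SB (fun y => G (φ y)) R τ := by
  refine ⟨inv_sm h.sm φ, fun t ht x => ?_, fun x y => ?_, fun x => ?_, fun x => ?_⟩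
  · show G (φ (t • x)) = t * G (φ x)
    rw [map_smul]
    exact h.hom t ht (φ x)
  · show G (φ (x + y)) + τ * (‖x‖ + ‖y‖ - ‖x + y‖) ≤ G (φ x) + G (φ y)
    have h1 := h.sub (φ x) (φ y)
    rw [← map_add, φ.norm_map, φ.norm_map, φ.norm_map] at h1
    exact h1
  · show G (φ x) + G (φ (-x)) = ‖x‖
    rw [map_neg, h.wid, φ.norm_map]
  · show G (φ x) ≤ R * ‖x‖
    have h1 := h.bd (φ x)
    rw [φ.norm_map] at h1
    exact h1

theorem ed_comp {G : E → ℝ} {R τ : ℝ} (h : SB G R τ) (φ : E ≃ₗᵢ[ℝ] E) {x : E} (hx : x ≠ 0) :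
    ed (fun y => G (φ y)) x = ed G (φ x) := by
  have h1 : od (fun y => G (φ y)) = fun y => od G (φ y) := by
    funext y
    unfold od
    rw [φ.norm_map]
  unfold ed
  rw [h1, sg_comp (sm_mono (od_sm h) (by norm_num)) φ hx, φ.norm_map]

theorem TG_comp {G : E → ℝ} {ε : ℝ} (h : TG G ε) (φ : E ≃ₗᵢ[ℝ] E)
    (hφ : ∀ i : Fin 4, ∃ j : Fin 4, φ (vv i) = vv j) : TG (fun y => G (φ y)) ε := by
  intro i x
  obtain ⟨j, hj⟩ := hφ i
  show inner ℝ x (vv i) - ε * ‖x‖ ≤ G (φ x)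
  have h1 := h j (φ x)
  rw [← hj, LinearIsometryEquiv.inner_map_map, φ.norm_map] at h1
  exact h1

end Pool.Agent.MGE
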