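import Pool.Agent.MGE.Defs
import Pool.Agent.MEIS.SMA
import Pool.Agent.MEIS.PDR
import Pool.Agent.MGE.VV
import Pool.Agent.MEIS.PAR
import Pool.Agent.MEIS.NRM
/-!
JGD (120 lines). The jet of G in the chart is good; parity relations.
PROOF. For F with Sm 1 F the function z ↦ F (P z) has derivative pd 0 F (P z) • fst + pd 1 F (P z) • snd: P is affine with
derivative (a,b) ↦ pt a b 0 = a • single 0 1 + b • single 1 1 (HasFDerivAt of P: hasFDerivAt_pi / PiLp, or P z = P 0 + L z with L a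
continuous linear map), chain rule with sm_differentiableAt at P z ≠ 0, fderiv_pd. Apply to F = G, pd 0 G, pd 1 G, and the
second partial derivatives; order of differentiation by pd_comm (and pd_congr to use it inside a further derivative).
Continuity: continuousOn {0}ᶜ composed with P.
wid relations: differentiate G x + G (-x) = ‖x‖ (see PAR and NRM of MEIS): pd i G x - pd i G (-x) = x i / ‖x‖,
pd i (pd j G) x + pd i (pd j G) (-x) = ((if i = j then 1 else 0) - x i * x j / ‖x‖ ^ 2) / ‖x‖.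
-/
set_option autoImplicit false

open MeasureTheory Set Metric Pool.Agent.MEIS Pool.Agent.MSQ

namespace Pool.Agent.MGE

private noncomputable def jgd_L : ℝ × ℝ →L[ℝ] E :=
  (ContinuousLinearMap.fst ℝ ℝ ℝ).smulRight (EuclideanSpace.single (0 : Fin 3) (1 : ℝ)) +
    (ContinuousLinearMap.snd ℝ ℝ ℝ).smulRight (EuclideanSpace.single (1 : Fin 3) (1 : ℝ))

private theorem jgd_P (z : ℝ × ℝ) : P z = pt 0 0 1 + jgd_L z := by
  ext i
  fin_cases i <;> simp [P, pt, jgd_L]

private theorem jgd_hP (z : ℝ × ℝ) : HasFDerivAt P jgd_L z := by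
  have e : P = fun z => pt 0 0 1 + jgd_L z := funext jgd_P
  rw [e]
  exact (jgd_L.hasFDerivAt).const_add _

private theorem jgd_D1 {F : E → ℝ} (h : Sm 1 F) :
    D1 (fun z => F (P z)) (fun z => pd 0 F (P z)) (fun z => pd 1 F (P z)) := by
  intro z
  have h1 := (sm_differentiableAt h (P_ne z)).hasFDerivAt.comp z (jgd_hP z)
  refine h1.congr_fderiv ?_
  ext <;> simp [jgd_L, pd]

private theorem jgd_cont {F : E → ℝ} (h : Sm 0 F) : Continuous (fun z => F (P z)) :=
  ContinuousOn.comp_continuous (ContDiffOn.continuousOn h) continuous_P (fun z => P_ne z)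

private theorem jgd_D1' {F : E → ℝ} (h : Sm 1 F) {A B : ℝ × ℝ → ℝ}
    (hA : ∀ z, A z = pd 0 F (P z)) (hB : ∀ z, B z = pd 1 F (P z)) : D1 (fun z => F (P z)) A B := by
  have eA : A = fun z => pd 0 F (P z) := funext hA
  have eB : B = fun z => pd 1 F (P z) := funext hB
  rw [eA, eB]
  exact jgd_D1 h

theorem jG_good {G : E → ℝ} (h : Sm 3 G) : (jG G).Good := by
  have h1 : ∀ i, Sm 2 (pd i G) := fun i => sm_pd (n := 2) h i
  have h2 : ∀ i j, Sm 1 (pd i (pd j G)) := fun i j => sm_pd (n := 1) (h1 j) i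
  have h3 : ∀ i j k, Sm 0 (pd i (pd j (pd k G))) := fun i j k => sm_pd (n := 0) (h2 j k) i
  have hG2 : Sm 2 G := sm_mono h (by norm_num)
  have hG1 : Sm 1 G := sm_mono h (by norm_num)
  have h11 : ∀ i, Sm 1 (pd i G) := fun i => sm_mono (h1 i) (by norm_num)
  refine ⟨?_, ?_, ?_, ?_, ?_, ?_, ?_, ?_, ?_, ?_⟩
  · exact jgd_D1 hG1
  · refine jgd_D1' (h11 0) (fun z => rfl) (fun z => ?_)
    exact pd_comm hG2 (P_ne z) 0 1
  · exact jgd_D1 (h11 1)
  · refine jgd_D1' (h2 0 0) (fun z => rfl) (fun z => ?_)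
    have e1 : pd 1 (pd 0 (pd 0 G)) (P z) = pd 0 (pd 1 (pd 0 G)) (P z) := pd_comm (h1 0) (P_ne z) 1 0
    have e2 : pd 0 (pd 1 (pd 0 G)) (P z) = pd 0 (pd 0 (pd 1 G)) (P z) :=
      pd_congr (fun y hy => pd_comm hG2 hy 1 0) (P_ne z) 0
    change pd 0 (pd 0 (pd 1 G)) (P z) = _
    rw [e1, e2]
  · refine jgd_D1' (h2 0 1) (fun z => rfl) (fun z => ?_)
    exact pd_comm (h1 1) (P_ne z) 0 1
  · exact jgd_D1 (h2 1 1)
  · exact jgd_cont (h3 0 0 0)
  · exact jgd_cont (h3 0 0 1)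
  · exact jgd_cont (h3 0 1 1)
  · exact jgd_cont (h3 1 1 1)

theorem pd_wid {G : E → ℝ} {R τ : ℝ} (h : SB G R τ) {x : E} (hx : x ≠ 0) (i : Fin 3) :
    pd i G x - pd i G (-x) = x i / ‖x‖ := by
  have hG1 : Sm 1 G := sm_mono h.sm (by norm_num)
  have e : (fun y : E => G y + (fun w => G (-w)) y) = fun y : E => ‖y‖ := funext fun y => h.wid y
  have e1 := pd_add hG1 (sm_negarg hG1) hx i
  rw [e, pd_norm hx, par_neg] at e1
  rw [e1]
  ring

theorem pd2_wid {G : E → ℝ} {R τ : ℝ} (h : SB G R τ) {x : E} (hx : x ≠ 0) (i j : Fin 3) :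
    pd i (pd j G) x + pd i (pd j G) (-x) =
      ((if i = j then (1 : ℝ) else 0) - x i * x j / ‖x‖ ^ 2) / ‖x‖ := by
  have h1 : Sm 1 (pd j G) := sm_mono (sm_pd (n := 2) h.sm j) (by norm_num)
  have e0 : ∀ y : E, y ≠ 0 → (fun y : E => pd j G y - (fun w => pd j G (-w)) y) y =
      pd j (fun y : E => ‖y‖) y := fun y hy => by
    rw [pd_norm hy]
    exact pd_wid h hy j
  have e1 := pd_congr e0 hx i
  rw [pd2_norm hx, pd_sub h1 (sm_negarg h1) hx i, par_neg] at e1
  rw [← e1]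
  ring

end Pool.Agent.MGE
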