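import Pool.Agent.MGE.Defs
import Pool.Agent.MEIS.HOM
import Pool.Agent.MEIS.NRM
import Pool.Agent.MEIS.GRD
import Pool.Agent.MEIS.PTW
import Pool.Agent.MGE.VV
import Pool.Agent.MGE.EDN
/-!
PTI (110 lines). Pointwise identity: chart density = ed / l^3.
PROOF. x = P z, l = ‖x‖ = lf z, g = od G, A_{ij} = pd i (pd j g) x: symmetric (pd_comm) and ∑_i x_i A_{ij} = 0 (euler_two, g of
degree 1). pd i (pd j G) x = A_{ij} + (δ_{ij} - x_i x_j / l^2)/(2l) (pd2_od of GRD). With x 2 = 1 the relations give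
A_{02} = -(X A_{00} + Y A_{01}), A_{12} = -(X A_{01} + Y A_{11}), A_{22} = -(X A_{02} + Y A_{12}); hence
sg g x = A00 A11 + A00 A22 + A11 A22 - A01^2 - A02^2 - A12^2 = l^2 (A00 A11 - A01^2)  (ring after substitution; sg is
(lap^2 - hs)/2, expand with Fin.sum_univ_three).
lJ.fXX z = (1+Y^2)/l^3 = (1 - X^2/l^2)/l etc. So fXX = lJ.fXX/2 + A00, lJ.fXX - fXX = lJ.fXX/2 - A00, and
dn = l [ (lXX lYY - lXY^2)/4·... ] : fXX (lYY-fYY) + fYY (lXX-fXX) - 2 fXY (lXY-fXY)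
= (lXX lYY - lXY^2)/2 - 2 (A00 A11 - A01^2), and lXX lYY - lXY^2 = 1/l^4. Therefore
dn = l/2 (1/(2 l^4) - 2 sg g x / l^2) = (1/4 - l^2 sg g x)/l^3 = ed G x / l^3.
-/
set_option autoImplicit false

open MeasureTheory Set Metric Pool.Agent.MEIS Pool.Agent.MSQ

namespace Pool.Agent.MGE

theorem dn_eq {G : E → ℝ} {R τ : ℝ} (h : SB G R τ) (z : ℝ × ℝ) :
    dn (jG G) z = ed G (P z) / lf z ^ 3 := by
  have hx : P z ≠ 0 := P_ne z
  have hl : 0 < lf z := lf_pos z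
  have hl2 : lf z ^ 2 = 1 + z.1 ^ 2 + z.2 ^ 2 := by
    rw [lf, Real.sq_sqrt (by positivity)]
  have hn : ‖P z‖ = lf z := norm_P z
  have x0 : P z 0 = z.1 := pt0 _ _ _
  have x1 : P z 1 = z.2 := pt1 _ _ _
  have x2 : P z 2 = 1 := pt2 _ _ _
  have e := fun i => euler_two (sm_mono (od_sm h) (by norm_num : 2 ≤ 3)) (od_hom h) hx i
  simp only [Fin.sum_univ_three, x0, x1, x2, one_mul] at e
  have e0 := e 0
  have e1 := e 1
  have e2 := e 2
  have s01 := ptw_symg h hx 1 0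
  have s02 := ptw_symg h hx 2 0
  have s12 := ptw_symg h hx 2 1
  rw [s01] at e1
  rw [s02, s12] at e2
  have p00 := pd2_od h hx 0 0
  have p01 := pd2_od h hx 0 1
  have p11 := pd2_od h hx 1 1
  rw [if_pos rfl, x0, hn] at p00
  rw [if_neg (by decide), x0, x1, hn] at p01
  rw [if_pos rfl, x1, hn] at p11
  have hsg : sg (od G) (P z) = lf z ^ 2 * (pd 0 (pd 0 (od G)) (P z) * pd 1 (pd 1 (od G)) (P z) -
      pd 0 (pd 1 (od G)) (P z) ^ 2) := by
    simp only [sg, lap, hs, Fin.sum_univ_three]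
    rw [s01, s02, s12, hl2]
    generalize pd 0 (pd 0 (od G)) (P z) = a00 at *
    generalize pd 0 (pd 1 (od G)) (P z) = a01 at *
    generalize pd 0 (pd 2 (od G)) (P z) = a02 at *
    generalize pd 1 (pd 1 (od G)) (P z) = a11 at *
    generalize pd 1 (pd 2 (od G)) (P z) = a12 at *
    generalize pd 2 (pd 2 (od G)) (P z) = a22 at *
    have h02 : a02 = -(z.1 * a00 + z.2 * a01) := by linarith
    have h12 : a12 = -(z.1 * a01 + z.2 * a11) := by linarith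
    have h22 : a22 = -(z.1 * a02 + z.2 * a12) := by linarith
    rw [h22, h02, h12]
    ring
  have hJ1 : (jG G).fXX z = pd 0 (pd 0 G) (P z) := rfl
  have hJ2 : (jG G).fXY z = pd 0 (pd 1 G) (P z) := rfl
  have hJ3 : (jG G).fYY z = pd 1 (pd 1 G) (P z) := rfl
  have hL1 : lJ.fXX z = (1 + z.2 ^ 2) / lf z ^ 3 := rfl
  have hL2 : lJ.fXY z = -(z.1 * z.2) / lf z ^ 3 := rfl
  have hL3 : lJ.fYY z = (1 + z.1 ^ 2) / lf z ^ 3 := rfl
  have q0 : (1 - z.1 * z.1 / lf z ^ 2) / lf z / 2 = ((1 + z.2 ^ 2) / lf z ^ 3) / 2 := by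
    field_simp
    rw [hl2]
    ring
  have q1 : (0 - z.1 * z.2 / lf z ^ 2) / lf z / 2 = (-(z.1 * z.2) / lf z ^ 3) / 2 := by
    field_simp
    ring
  have q2 : (1 - z.2 * z.2 / lf z ^ 2) / lf z / 2 = ((1 + z.1 ^ 2) / lf z ^ 3) / 2 := by
    field_simp
    rw [hl2]
    ring
  rw [q0] at p00
  rw [q1] at p01
  rw [q2] at p11
  rw [dn, ed, hJ1, hJ2, hJ3, hL1, hL2, hL3, hsg, p00, p01, p11, hn]
  generalize pd 0 (pd 0 (od G)) (P z) = a00
  generalize pd 0 (pd 1 (od G)) (P z) = a01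
  generalize pd 1 (pd 1 (od G)) (P z) = a11
  have key : (1 + z.2 ^ 2) / lf z ^ 3 * ((1 + z.1 ^ 2) / lf z ^ 3) - (-(z.1 * z.2) / lf z ^ 3) ^ 2 =
      1 / lf z ^ 4 := by
    have h6 : (1 + z.2 ^ 2) / lf z ^ 3 * ((1 + z.1 ^ 2) / lf z ^ 3) - (-(z.1 * z.2) / lf z ^ 3) ^ 2 =
        (1 + z.1 ^ 2 + z.2 ^ 2) / lf z ^ 6 := by
      field_simp
      ring
    rw [h6, ← hl2]
    field_simp
  generalize (1 + z.2 ^ 2) / lf z ^ 3 = a at *
  generalize (1 + z.1 ^ 2) / lf z ^ 3 = b at *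
  generalize -(z.1 * z.2) / lf z ^ 3 = c at *
  have h7 : lf z * ((a00 + a / 2) * (b - (a11 + b / 2)) + (a11 + b / 2) * (a - (a00 + a / 2)) -
      2 * (a01 + c / 2) * (c - (a01 + c / 2))) / 2 =
      lf z / 2 * ((a * b - c ^ 2) / 2 - 2 * (a00 * a11 - a01 ^ 2)) := by ring
  rw [h7, key]
  field_simp
  ring

end Pool.Agent.MGE
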