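import Pool.Agent.MGE.Defs
import Pool.Agent.MGE.VV
/-!
FRF (60 lines). The reflections rf i j and the three symmetries fr k of the tetrahedron.
PROOF. Submodule.reflection on the orthogonal complement of the line spanned by w = vv i - vv j (unit vector):
rf i j x = x - 2 <w, x> w (Submodule.reflection_orthogonal_apply, Submodule.reflection_singleton_apply or
Submodule.reflection_sub / EuclideanGeometry; for a unit vector w the projection on the span of w is <w,x> w,
Submodule.starProjection_unit_singleton). Then vv_sub_inner. Involution: Submodule.reflection_reflection.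
Self adjoint: inner (rf x) y = inner (rf (rf x)) (rf y) = inner x (rf y).
-/
set_option autoImplicit false

open MeasureTheory Set Metric Pool.Agent.MEIS Pool.Agent.MSQ

namespace Pool.Agent.MGE

theorem rf_apply {i j : Fin 4} (h : i ≠ j) (x : E) :
    rf i j x = x - (2 * inner ℝ x (vv i - vv j)) • (vv i - vv j) := by
  have hn : ‖vv i - vv j‖ = 1 := vv_sub_norm h
  unfold rf
  rw [Submodule.reflection_orthogonal_apply, Submodule.reflection_singleton_apply, hn,
    real_inner_comm]
  have h1 : (inner ℝ x (vv i - vv j) : ℝ) / ((1 : ℝ) : ℝ) ^ 2 = inner ℝ x (vv i - vv j) := by norm_num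
  change -(2 • ((inner ℝ x (vv i - vv j) : ℝ) / ((1 : ℝ) : ℝ) ^ 2) • (vv i - vv j) - x) = _
  rw [h1, mul_smul, two_smul, two_smul]
  abel
theorem rf_left {i j : Fin 4} (h : i ≠ j) : rf i j (vv i) = vv j := by
  rw [rf_apply h, real_inner_comm, vv_sub_inner h]
  simp
theorem rf_right {i j : Fin 4} (h : i ≠ j) : rf i j (vv j) = vv i := by
  have h1 : inner ℝ (vv j) (vv i - vv j) = -(1 / 2 : ℝ) := by
    rw [← neg_sub (vv j) (vv i), inner_neg_right, real_inner_comm, vv_sub_inner h.symm]
  rw [rf_apply h, h1]
  simp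
theorem rf_other {i j k : Fin 4} (h : i ≠ j) (h1 : k ≠ i) (h2 : k ≠ j) : rf i j (vv k) = vv k := by
  rw [rf_apply h, real_inner_comm, vv_sub_inner' h1 h2]
  simp
theorem fr_vv (k : Fin 3) (i : Fin 4) : ∃ j : Fin 4, fr k (vv i) = vv j := by
  have key : ∀ a b i : Fin 4, a ≠ b → ∃ j : Fin 4, rf a b (vv i) = vv j := by
    intro a b i hab
    by_cases h1 : i = a
    · exact ⟨b, by rw [h1, rf_left hab]⟩
    · by_cases h2 : i = b
      · exact ⟨a, by rw [h2, rf_right hab]⟩
      · exact ⟨i, rf_other hab h1 h2⟩
  fin_cases k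
  · exact ⟨i, rfl⟩
  · exact key 1 2 i (by decide)
  · exact key 1 3 i (by decide)
theorem fr_fr (k : Fin 3) (x : E) : fr k (fr k x) = x := by
  fin_cases k
  · rfl
  · exact Submodule.reflection_reflection _ x
  · exact Submodule.reflection_reflection _ x
theorem fr_inner (k : Fin 3) (x y : E) : inner ℝ (fr k x) y = inner ℝ x (fr k y) := by
  rw [← (fr k).inner_map_map (fr k x) y, fr_fr]

end Pool.Agent.MGE
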