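import Pool.Agent.MGE.Defs
import Pool.Agent.MEIS.PSD
import Pool.Agent.MEIS.GRD
import Pool.Agent.MGE.VV
import Pool.Agent.MGE.JGD
/-!
JHS (70 lines). Hessian inequalities of the jet.
PROOF. SB_diag and SB_minor at x = P z give the first three. For l - H: pd2_wid: lJ.fXX z - fXX z = pd 0 (pd 0 G) (-P z)
(lJ.fXX z = (1+Y^2)/l^3 = (1 - X^2/l^2)/l, lJ.fXY z = -XY/l^3 = (0 - XY/l^2)/l, ‖P z‖ = lf z, l^2 = 1+X^2+Y^2), then SB_diag, SB_minor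
at -P z.
-/
set_option autoImplicit false

open MeasureTheory Set Metric Pool.Agent.MEIS Pool.Agent.MSQ

namespace Pool.Agent.MGE

private theorem JHS_sq (z : ℝ × ℝ) : lf z ^ 2 = 1 + z.1 ^ 2 + z.2 ^ 2 := by
  unfold lf
  rw [Real.sq_sqrt (by positivity)]

private theorem JHS_xx {G : E → ℝ} {R τ : ℝ} (h : SB G R τ) (z : ℝ × ℝ) :
    lJ.fXX z - (jG G).fXX z = pd 0 (pd 0 G) (-P z) := by
  have h1 := pd2_wid h (P_ne z) 0 0
  have e0 : P z 0 = z.1 := rfl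
  rw [norm_P, if_pos rfl, e0] at h1
  have hl := lf_pos z
  have h2 : (1 - z.1 * z.1 / lf z ^ 2) / lf z = (1 + z.2 ^ 2) / lf z ^ 3 := by
    have h3 : (1 - z.1 * z.1 / lf z ^ 2) / lf z = (lf z ^ 2 - z.1 * z.1) / lf z ^ 3 := by
      field_simp
    rw [h3, JHS_sq]
    congr 1
    ring
  rw [h2] at h1
  change (1 + z.2 ^ 2) / lf z ^ 3 - pd 0 (pd 0 G) (P z) = _
  linarith

private theorem JHS_yy {G : E → ℝ} {R τ : ℝ} (h : SB G R τ) (z : ℝ × ℝ) :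
    lJ.fYY z - (jG G).fYY z = pd 1 (pd 1 G) (-P z) := by
  have h1 := pd2_wid h (P_ne z) 1 1
  have e0 : P z 1 = z.2 := rfl
  rw [norm_P, if_pos rfl, e0] at h1
  have hl := lf_pos z
  have h2 : (1 - z.2 * z.2 / lf z ^ 2) / lf z = (1 + z.1 ^ 2) / lf z ^ 3 := by
    have h3 : (1 - z.2 * z.2 / lf z ^ 2) / lf z = (lf z ^ 2 - z.2 * z.2) / lf z ^ 3 := by
      field_simp
    rw [h3, JHS_sq]
    congr 1
    ring
  rw [h2] at h1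
  change (1 + z.1 ^ 2) / lf z ^ 3 - pd 1 (pd 1 G) (P z) = _
  linarith

private theorem JHS_xy {G : E → ℝ} {R τ : ℝ} (h : SB G R τ) (z : ℝ × ℝ) :
    lJ.fXY z - (jG G).fXY z = pd 0 (pd 1 G) (-P z) := by
  have h1 := pd2_wid h (P_ne z) 0 1
  have e0 : P z 0 = z.1 := rfl
  have e1 : P z 1 = z.2 := rfl
  rw [norm_P, if_neg (by decide), e0, e1] at h1
  have hl := lf_pos z
  have h2 : (0 - z.1 * z.2 / lf z ^ 2) / lf z = -(z.1 * z.2) / lf z ^ 3 := by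
    field_simp
    ring
  rw [h2] at h1
  change -(z.1 * z.2) / lf z ^ 3 - pd 0 (pd 1 G) (P z) = _
  linarith

theorem hess_pos {G : E → ℝ} {R τ : ℝ} (h : SB G R τ) (hτ : 0 ≤ τ) (z : ℝ × ℝ) :
    0 ≤ (jG G).fXX z ∧ 0 ≤ (jG G).fYY z ∧ (jG G).fXY z ^ 2 ≤ (jG G).fXX z * (jG G).fYY z := by
  exact ⟨SB_diag h hτ (P_ne z) 0, SB_diag h hτ (P_ne z) 1, SB_minor h hτ (P_ne z) 0 1⟩

theorem hess_neg {G : E → ℝ} {R τ : ℝ} (h : SB G R τ) (hτ : 0 ≤ τ) (z : ℝ × ℝ) :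
    (jG G).fXX z ≤ lJ.fXX z ∧ (jG G).fYY z ≤ lJ.fYY z ∧
      (lJ.fXY z - (jG G).fXY z) ^ 2 ≤ (lJ.fXX z - (jG G).fXX z) * (lJ.fYY z - (jG G).fYY z) := by
  have hn : -P z ≠ 0 := neg_ne_zero.2 (P_ne z)
  have h0 := SB_diag h hτ hn 0
  have h1 := SB_diag h hτ hn 1
  have h2 := SB_minor h hτ hn 0 1
  rw [← JHS_xx h z] at h0
  rw [← JHS_yy h z] at h1
  rw [← JHS_xx h z, ← JHS_yy h z, ← JHS_xy h z] at h2
  exact ⟨by linarith, by linarith, h2⟩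

end Pool.Agent.MGE
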