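import Pool.Agent.MGE.Defs
import Pool.Agent.MGE.VV
/-!
TRI (80 lines). Lebesgue measure on E as an iterated integral.
PROOF. EuclideanSpace.volume_preserving_symm_measurableEquiv_toLp (or volume_preserving_measurableEquiv) identifies E with
Fin 3 → ℝ; volume_preserving_piFinSuccAbove (or MeasurableEquiv.piFinSuccAbove, volume_preserving_finTwoArrow) to split
coordinates; lintegral_prod / lintegral_prod_symm (Tonelli, measurable f). Any order is fine because of Tonelli.
-/
set_option autoImplicit false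

open MeasureTheory Set Metric Pool.Agent.MEIS Pool.Agent.MSQ

namespace Pool.Agent.MGE

theorem lint_triple (f : E → ENNReal) (hf : Measurable f) :
    ∫⁻ x : E, f x = ∫⁻ c : ℝ, ∫⁻ a : ℝ, ∫⁻ b : ℝ, f (pt a b c) := by
  have h1 : ∫⁻ x : E, f x = ∫⁻ y : Fin 3 → ℝ, f (WithLp.toLp 2 y) :=
    ((PiLp.volume_preserving_toLp (Fin 3)).lintegral_comp hf).symm
  have hm1 : Measurable fun y : Fin 3 → ℝ => f (WithLp.toLp 2 y) :=
    hf.comp (PiLp.volume_preserving_toLp (Fin 3)).measurable
  have h2 : ∫⁻ y : Fin 3 → ℝ, f (WithLp.toLp 2 y) = ∫⁻ p : ℝ × (Fin 2 → ℝ),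
      f (WithLp.toLp 2 ((MeasurableEquiv.piFinSuccAbove (fun _ => ℝ) (2 : Fin 3)).symm p)) :=
    ((MeasurePreserving.symm _ (volume_preserving_piFinSuccAbove (fun _ : Fin 3 => ℝ) 2)).lintegral_comp hm1).symm
  rw [h1, h2, Measure.volume_eq_prod, lintegral_prod]
  swap
  · exact (hm1.comp (MeasurableEquiv.measurable _)).aemeasurable
  refine lintegral_congr fun c => ?_
  have hm2 : Measurable fun w : Fin 2 → ℝ =>
      f (WithLp.toLp 2 ((MeasurableEquiv.piFinSuccAbove (fun _ => ℝ) (2 : Fin 3)).symm (c, w))) :=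
    (hm1.comp (MeasurableEquiv.measurable _)).comp measurable_prodMk_left
  have h3 := ((MeasurePreserving.symm _ (volume_preserving_finTwoArrow ℝ)).lintegral_comp hm2).symm
  rw [h3, Measure.volume_eq_prod, lintegral_prod]
  swap
  · exact (hm2.comp (MeasurableEquiv.measurable _)).aemeasurable
  refine lintegral_congr fun a => lintegral_congr fun b => ?_
  congr 1
  ext i
  fin_cases i <;> rfl

end Pool.Agent.MGE
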