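import Pool.Agent.MGE.Defs
import Pool.Agent.MGE.VV
import Pool.Agent.MGE.TRI
/-!
CHI (120 lines). Integral of a function of degree 0 over a cone, in the chart.
PROOF. lint_triple for the indicator. For fixed c ≤ 0 the integrand vanishes. For c > 0 substitute a = c X, b = c Y:
∫⁻ a, g a = ofReal c * ∫⁻ X, g (c X) (Measure.addHaar_smul / lintegral_comp_mul_left, Real.map_volume_mul_left, or
MeasureTheory.Measure.lintegral_comp_smul); pt (cX) (cY) c = c • P (X,Y), its norm is c * lf, membership in the cone is (X,Y) ∈ A,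
F (c • P z) = F (P z). So the integral is ∫⁻ c in Ioi 0, ∫⁻ z in A, ofReal (c^2) * 1[c lf z < 1] * F (P z); exchange the
integrals (Tonelli, joint measurability) and use ∫⁻ c in Ioo 0 (1/l), ofReal (c^2) = ofReal (1/(3 l^3)).
-/
set_option autoImplicit false

open MeasureTheory Set Metric Pool.Agent.MEIS Pool.Agent.MSQ

namespace Pool.Agent.MGE

private theorem CHI_scale {g : ℝ → ENNReal} (hg : Measurable g) {c : ℝ} (hc : 0 < c) :
    ∫⁻ a : ℝ, g a = ENNReal.ofReal c * ∫⁻ x : ℝ, g (c * x) := by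
  have h1 : ∫⁻ x : ℝ, g (c * x) = ENNReal.ofReal |c⁻¹| * ∫⁻ a : ℝ, g a := by
    rw [← lintegral_map hg (measurable_const_mul c), Real.map_volume_mul_left hc.ne',
      lintegral_smul_measure, smul_eq_mul]
  rw [h1, ← mul_assoc, ← ENNReal.ofReal_mul hc.le, abs_of_pos (inv_pos.2 hc),
    mul_inv_cancel₀ hc.ne', ENNReal.ofReal_one, one_mul]

private theorem CHI_pt : Measurable fun p : ℝ × ℝ × ℝ => pt p.1 p.2.1 p.2.2 := by
  unfold pt
  refine ((PiLp.continuous_toLp 2 _).comp (continuous_pi fun i => ?_)).measurable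
  fin_cases i
  · exact continuous_fst
  · exact continuous_fst.comp continuous_snd
  · exact continuous_snd.comp continuous_snd

private theorem CHI_cone {A : Set (ℝ × ℝ)} (hA : MeasurableSet A) : MeasurableSet (Cn A) := by
  have h : ∀ i : Fin 3, Measurable fun x : E => x i := fun i =>
    (PiLp.continuous_apply 2 (fun _ : Fin 3 => ℝ) i).measurable
  have h1 : MeasurableSet {x : E | 0 < x 2} := measurableSet_lt measurable_const (h 2)
  have h2 : Measurable fun x : E => ((x 0 / x 2, x 1 / x 2) : ℝ × ℝ) :=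
    ((h 0).div (h 2)).prodMk ((h 1).div (h 2))
  exact h1.inter (h2 hA)

private theorem CHI_lf : Continuous lf := by
  have h : lf = fun z => ‖P z‖ := by
    funext z
    exact (norm_P z).symm
  rw [h]
  exact continuous_P.norm

private def CHI_C (l : ℝ) : Set ℝ := {c : ℝ | 0 < c ∧ c * l < 1}

private theorem CHI_C_meas (l : ℝ) : MeasurableSet (CHI_C l) := by
  have h1 : MeasurableSet {c : ℝ | 0 < c} := measurableSet_Ioi
  have h2 : MeasurableSet {c : ℝ | c * l < 1} := measurableSet_lt (measurable_id.mul_const _) measurable_const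
  exact h1.inter h2

private theorem CHI_int {l : ℝ} (hl : 0 < l) :
    ∫⁻ c in CHI_C l, ENNReal.ofReal (c ^ 2) = ENNReal.ofReal (1 / (3 * l ^ 3)) := by
  have hs : CHI_C l = Ioo 0 (1 / l) := by
    ext c
    change (0 < c ∧ c * l < 1) ↔ (0 < c ∧ c < 1 / l)
    rw [lt_div_iff₀ hl]
  have h0 : (0 : ℝ) ≤ 1 / l := by positivity
  rw [hs, ← ofReal_integral_eq_lintegral_ofReal, ← integral_Ioc_eq_integral_Ioo,
    ← intervalIntegral.integral_of_le h0, integral_pow]
  · congr 1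
    have h3 : l ≠ 0 := hl.ne'
    rw [div_pow, one_pow]
    norm_num
    ring
  · exact ((continuous_pow 2).integrableOn_Icc (a := (0 : ℝ)) (b := 1 / l)).mono_set Ioo_subset_Icc_self
  · exact Filter.Eventually.of_forall fun c => sq_nonneg c

private def CHI_T (A : Set (ℝ × ℝ)) : Set (ℝ × (ℝ × ℝ)) := {p | 0 < p.1 ∧ p.2 ∈ A ∧ p.1 * lf p.2 < 1}

private theorem CHI_T_iff {A : Set (ℝ × ℝ)} {c : ℝ} {z : ℝ × ℝ} :
    (c, z) ∈ CHI_T A ↔ 0 < c ∧ z ∈ A ∧ c * lf z < 1 := Iff.rfl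

private theorem CHI_T_meas {A : Set (ℝ × ℝ)} (hA : MeasurableSet A) : MeasurableSet (CHI_T A) := by
  have h1 : MeasurableSet {p : ℝ × (ℝ × ℝ) | 0 < p.1} := measurableSet_lt measurable_const measurable_fst
  have h2 : MeasurableSet {p : ℝ × (ℝ × ℝ) | p.2 ∈ A} := measurable_snd hA
  have h4 : Measurable fun p : ℝ × (ℝ × ℝ) => p.1 * lf p.2 :=
    measurable_fst.mul (CHI_lf.measurable.comp measurable_snd)
  have h3 : MeasurableSet {p : ℝ × (ℝ × ℝ) | p.1 * lf p.2 < 1} := measurableSet_lt h4 measurable_const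
  exact h1.inter (h2.inter h3)

private noncomputable def CHI_H (F : E → ENNReal) (A : Set (ℝ × ℝ)) : ℝ × (ℝ × ℝ) → ENNReal :=
  (CHI_T A).indicator fun p => ENNReal.ofReal (p.1 ^ 2) * F (P p.2)

private theorem CHI_H_meas {F : E → ENNReal} (hF : Measurable F) {A : Set (ℝ × ℝ)} (hA : MeasurableSet A) :
    Measurable (CHI_H F A) := by
  have hP : Measurable fun p : ℝ × (ℝ × ℝ) => ENNReal.ofReal (p.1 ^ 2) * F (P p.2) :=
    ((measurable_fst.pow_const 2).ennreal_ofReal).mul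
      (hF.comp (continuous_P.measurable.comp measurable_snd))
  exact hP.indicator (CHI_T_meas hA)

private theorem CHI_H_in {F : E → ENNReal} {A : Set (ℝ × ℝ)} {c : ℝ} {z : ℝ × ℝ} (h : (c, z) ∈ CHI_T A) :
    CHI_H F A (c, z) = ENNReal.ofReal (c ^ 2) * F (P z) := indicator_of_mem h _

private theorem CHI_H_out {F : E → ENNReal} {A : Set (ℝ × ℝ)} {c : ℝ} {z : ℝ × ℝ} (h : (c, z) ∉ CHI_T A) :
    CHI_H F A (c, z) = 0 := indicator_of_notMem h _

private noncomputable def CHI_G (F : E → ENNReal) (A : Set (ℝ × ℝ)) : E → ENNReal :=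
  (ball (0 : E) 1 ∩ Cn A).indicator F

private theorem CHI_S_iff {A : Set (ℝ × ℝ)} {c : ℝ} (hc : 0 < c) (z : ℝ × ℝ) :
    c • P z ∈ ball (0 : E) 1 ∩ Cn A ↔ (c, z) ∈ CHI_T A := by
  have e0 : (c • P z) 0 = c * z.1 := by rw [P, smul_pt, pt0]
  have e1 : (c • P z) 1 = c * z.2 := by rw [P, smul_pt, pt1]
  have e2 : (c • P z) 2 = c := by rw [P, smul_pt, pt2, mul_one]
  have h1 : c • P z ∈ ball (0 : E) 1 ↔ c * lf z < 1 := by
    rw [mem_ball_zero_iff, norm_smul, norm_P, Real.norm_of_nonneg hc.le]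
  have h2 : c • P z ∈ Cn A ↔ 0 < (c • P z) 2 ∧ ((c • P z) 0 / (c • P z) 2, (c • P z) 1 / (c • P z) 2) ∈ A :=
    Iff.rfl
  rw [mem_inter_iff, h1, h2, e0, e1, e2, mul_div_cancel_left₀ _ hc.ne', mul_div_cancel_left₀ _ hc.ne',
    CHI_T_iff]
  constructor
  · rintro ⟨a, b, d⟩
    exact ⟨b, d, a⟩
  · rintro ⟨a, b, d⟩
    exact ⟨d, a, b⟩

private theorem CHI_G_zero (F : E → ENNReal) (A : Set (ℝ × ℝ)) {c : ℝ} (hc : c ≤ 0) (a b : ℝ) :
    CHI_G F A (pt a b c) = 0 := by
  refine indicator_of_notMem (fun h => ?_) _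
  have h2 : pt a b c ∈ Cn A := h.2
  have h3 : 0 < pt a b c 2 := h2.1
  rw [pt2] at h3
  exact absurd h3 (not_lt.2 hc)

private theorem CHI_gen {G : E → ENNReal} (hG : Measurable G) {c : ℝ} (hc : 0 < c) :
    (∫⁻ a : ℝ, ∫⁻ b : ℝ, G (pt a b c)) = ∫⁻ z : ℝ × ℝ, ENNReal.ofReal (c ^ 2) * G (c • P z) := by
  have hp : Measurable fun p : ℝ × ℝ => pt p.1 p.2 c :=
    CHI_pt.comp (measurable_fst.prodMk (measurable_snd.prodMk measurable_const))
  have hm : Measurable fun p : ℝ × ℝ => G (pt p.1 p.2 c) := hG.comp hp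
  have hm1 : ∀ a : ℝ, Measurable fun b : ℝ => G (pt a b c) := by
    intro a
    have h7 : Measurable fun b : ℝ => ((a, b) : ℝ × ℝ) := measurable_const.prodMk measurable_id
    exact hm.comp h7
  have s1 : ∀ a : ℝ, (∫⁻ b : ℝ, G (pt a b c)) =
      ENNReal.ofReal c * ∫⁻ Y : ℝ, G (pt a (c * Y) c) := by
    intro a
    exact CHI_scale (g := fun b => G (pt a b c)) (hm1 a) hc
  have hm2 : Measurable fun p : ℝ × ℝ => G (pt p.1 (c * p.2) c) := by
    have h7 : Measurable fun p : ℝ × ℝ => ((p.1, c * p.2) : ℝ × ℝ) :=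
      measurable_fst.prodMk (measurable_snd.const_mul c)
    exact hm.comp h7
  have hm4 : Measurable fun a : ℝ => ∫⁻ Y : ℝ, G (pt a (c * Y) c) := hm2.lintegral_prod_right'
  have s2 : (∫⁻ a : ℝ, ∫⁻ b : ℝ, G (pt a b c)) =
      ENNReal.ofReal c * (ENNReal.ofReal c * ∫⁻ X : ℝ, ∫⁻ Y : ℝ, G (pt (c * X) (c * Y) c)) := by
    simp only [s1]
    rw [lintegral_const_mul _ hm4, CHI_scale hm4 hc]
  have hm3 : Measurable fun p : ℝ × ℝ => G (pt (c * p.1) (c * p.2) c) := by
    have h7 : Measurable fun p : ℝ × ℝ => ((c * p.1, p.2) : ℝ × ℝ) :=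
      (measurable_fst.const_mul c).prodMk measurable_snd
    exact hm2.comp h7
  have s3 : (∫⁻ X : ℝ, ∫⁻ Y : ℝ, G (pt (c * X) (c * Y) c)) =
      ∫⁻ z : ℝ × ℝ, G (pt (c * z.1) (c * z.2) c) := by
    rw [Measure.volume_eq_prod, lintegral_prod _ hm3.aemeasurable]
  rw [s2, s3, ← mul_assoc, ← ENNReal.ofReal_mul hc.le, ← lintegral_const_mul _ hm3]
  refine lintegral_congr fun z => ?_
  have hz : pt (c * z.1) (c * z.2) c = c • P z := by
    rw [P, smul_pt, mul_one]
  rw [hz, sq]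

private theorem CHI_key {F : E → ENNReal} (hF : Measurable F)
    (hh : ∀ t : ℝ, 0 < t → ∀ x : E, x ≠ 0 → F (t • x) = F x) {A : Set (ℝ × ℝ)} (hA : MeasurableSet A)
    (c : ℝ) : (∫⁻ a : ℝ, ∫⁻ b : ℝ, CHI_G F A (pt a b c)) = ∫⁻ z : ℝ × ℝ, CHI_H F A (c, z) := by
  rcases le_or_gt c 0 with hc | hc
  · have e2 : ∀ z : ℝ × ℝ, CHI_H F A (c, z) = 0 := fun z =>
      CHI_H_out fun h => absurd (CHI_T_iff.1 h).1 (not_lt.2 hc)
    simp only [CHI_G_zero F A hc, e2, lintegral_zero]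
  · have hf : Measurable (CHI_G F A) := hF.indicator (measurableSet_ball.inter (CHI_cone hA))
    rw [CHI_gen hf hc]
    refine lintegral_congr fun z => ?_
    by_cases hin : (c, z) ∈ CHI_T A
    · have h5 : CHI_G F A (c • P z) = F (c • P z) := indicator_of_mem ((CHI_S_iff hc z).2 hin) _
      rw [h5, CHI_H_in hin, hh c hc _ (P_ne z)]
    · have h5 : CHI_G F A (c • P z) = 0 := indicator_of_notMem (fun h => hin ((CHI_S_iff hc z).1 h)) _
      rw [h5, CHI_H_out hin, mul_zero]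

theorem chart_lint (F : E → ENNReal) (hF : Measurable F)
    (hh : ∀ t : ℝ, 0 < t → ∀ x : E, x ≠ 0 → F (t • x) = F x) (A : Set (ℝ × ℝ)) (hA : MeasurableSet A) :
    ∫⁻ x in ball (0 : E) 1 ∩ Cn A, F x =
      ∫⁻ z in A, F (P z) * ENNReal.ofReal (1 / (3 * lf z ^ 3)) := by
  have hS : MeasurableSet (ball (0 : E) 1 ∩ Cn A) := measurableSet_ball.inter (CHI_cone hA)
  have hf : Measurable (CHI_G F A) := hF.indicator hS
  have h0 : ∫⁻ x in ball (0 : E) 1 ∩ Cn A, F x = ∫⁻ x, CHI_G F A x := (lintegral_indicator hS F).symm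
  rw [h0, lint_triple _ hf]
  simp only [CHI_key hF hh hA]
  rw [lintegral_lintegral_swap (f := fun c z => CHI_H F A (c, z)) (CHI_H_meas hF hA).aemeasurable,
    ← lintegral_indicator hA]
  refine lintegral_congr fun z => ?_
  by_cases hz : z ∈ A
  · have h1 : ∀ c : ℝ, CHI_H F A (c, z) = (CHI_C (lf z)).indicator
        (fun c => ENNReal.ofReal (c ^ 2) * F (P z)) c := by
      intro c
      by_cases hc : c ∈ CHI_C (lf z)
      · have hc' : 0 < c ∧ c * lf z < 1 := hc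
        rw [indicator_of_mem hc, CHI_H_in (CHI_T_iff.2 ⟨hc'.1, hz, hc'.2⟩)]
      · rw [indicator_of_notMem hc, CHI_H_out]
        intro h
        have h' := CHI_T_iff.1 h
        exact hc ⟨h'.1, h'.2.2⟩
    have h2 : Measurable fun c : ℝ => ENNReal.ofReal (c ^ 2) := (measurable_id.pow_const 2).ennreal_ofReal
    simp only [h1]
    rw [indicator_of_mem hz, lintegral_indicator (CHI_C_meas _), lintegral_mul_const _ h2,
      CHI_int (lf_pos z), mul_comm]
  · rw [indicator_of_notMem hz]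
    have e2 : ∀ c : ℝ, CHI_H F A (c, z) = 0 := fun c => CHI_H_out fun h => hz (CHI_T_iff.1 h).2.1
    simp only [e2, lintegral_zero]

end Pool.Agent.MGE
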