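import Pool.Agent.MGE.Defs
import Pool.Agent.MGE.VV
import Pool.Agent.MGE.FRF
/-!
COVR (100 lines). Covering of space by the six cones.
PROOF. a_i = <x, vv i> has sum 0 and x 0 = a_0 - a_1, x 1 = a_2 - a_3, x 2 = √2 (a_0 + a_1) (inner_vv*, cc = 1/√2).
Put s = a_0 + a_1, p = a_0 + a_2, q = a_0 + a_3. Then x 0 = p + q, x 1 = p - q, x 2 = √2 s (use a_1 = s - a_0 etc. and
2 a_0 = s + p + q). For fr k x the numbers b_i = <fr k x, vv i> = <x, fr k (vv i)> are the a_i permuted: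
k = 1 (a_1, a_2 exchanged): (s, p, q) becomes (p, s, q); k = 2 (a_1, a_3 exchanged): (s, p, q) becomes (q, p, s).
Choose k such that the first entry has the largest absolute value S; if S = 0 all a_i = 0 (2 a_0 = s+p+q) and x = 0.
So |p|, |q| <= |s|, s ≠ 0 after renaming y = fr k x; take the sign for which s > 0 (-y has -s, -p, -q).
Then y 2 > 0, |y 0| = |p+q| <= 2 s = √2 y 2, |y 1| = |p-q| <= 2 s = √2 y 2, and since |p+q| + |p-q| = 2 max(|p|,|q|) <= 2s
one of |y 0|, |y 1| is <= s = cc * y 2. Divide by y 2 > 0.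
-/
set_option autoImplicit false

open MeasureTheory Set Metric Pool.Agent.MEIS Pool.Agent.MSQ

namespace Pool.Agent.MGE

private theorem COVR_sqrt : √2 * cc = 1 := by
  unfold cc
  rw [mul_one_div, div_self (by positivity)]

private theorem COVR_cc : cc = √2 / 2 := by
  have h1 : √2 * √2 = 2 := Real.mul_self_sqrt (by norm_num)
  unfold cc
  rw [div_eq_div_iff (by positivity) (by norm_num)]
  linarith

/-- the criterion -/
private theorem COVR_crit {y : E} {s p q : ℝ} (h0 : y 0 = p + q) (h1 : y 1 = p - q) (h2 : y 2 = √2 * s) (hs : 0 < s)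
    (hp : |p| ≤ s) (hq : |q| ≤ s) : y ∈ Cn RR := by
  have hr : (0 : ℝ) < √2 := by positivity
  have hrr : √2 * √2 = 2 := Real.mul_self_sqrt (by norm_num)
  have hy2 : 0 < y 2 := by rw [h2]; positivity
  refine ⟨hy2, ?_⟩
  have key : ∀ u c : ℝ, |u| ≤ c * (√2 * s) → |u / y 2| ≤ c := by
    intro u c hu
    rw [abs_div, abs_of_pos hy2, div_le_iff₀ hy2, h2]
    exact hu
  have hc1 : cc * (√2 * s) = s := by
    rw [← mul_assoc, mul_comm cc, COVR_sqrt, one_mul]
  have hc2 : √2 * (√2 * s) = 2 * s := by rw [← mul_assoc, hrr]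
  have hp' := abs_le.1 hp
  have hq' := abs_le.1 hq
  have b0 : |y 0| ≤ 2 * s := by
    rw [h0, abs_le]
    constructor <;> linarith
  have b1 : |y 1| ≤ 2 * s := by
    rw [h1, abs_le]
    constructor <;> linarith
  have hor : |y 0| ≤ s ∨ |y 1| ≤ s := by
    rw [h0, h1]
    rcases abs_cases (p + q) with ⟨e1, _⟩ | ⟨e1, _⟩ <;> rcases abs_cases (p - q) with ⟨e2, _⟩ | ⟨e2, _⟩ <;>
      rw [e1, e2] <;> by_contra hcon <;> push Not at hcon <;> linarith [hcon.1, hcon.2]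
  rcases hor with h | h
  · left
    exact ⟨key _ _ (by rw [hc1]; exact h), key _ _ (by rw [hc2]; exact b1)⟩
  · right
    exact ⟨key _ _ (by rw [hc2]; exact b0), key _ _ (by rw [hc1]; exact h)⟩

private theorem COVR_crit' {y : E} {s p q : ℝ} (h0 : y 0 = p + q) (h1 : y 1 = p - q) (h2 : y 2 = √2 * s) (hs : s ≠ 0)
    (hp : |p| ≤ |s|) (hq : |q| ≤ |s|) : y ∈ Cn RR ∨ -y ∈ Cn RR := by
  rcases lt_or_gt_of_ne hs with h | h
  · right
    rw [abs_of_neg h] at hp hq
    refine COVR_crit (s := -s) (p := -p) (q := -q) ?_ ?_ ?_ (by linarith) (by rwa [abs_neg]) (by rwa [abs_neg])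
    · change -(y 0) = _
      rw [h0]
      ring
    · change -(y 1) = _
      rw [h1]
      ring
    · change -(y 2) = _
      rw [h2]
      ring
  · left
    rw [abs_of_pos h] at hp hq
    exact COVR_crit h0 h1 h2 h hp hq

private theorem COVR_coord (y : E) :
    y 0 = inner ℝ y (vv 0) - inner ℝ y (vv 1) ∧ y 1 = inner ℝ y (vv 2) - inner ℝ y (vv 3) ∧
      y 2 = √2 * (inner ℝ y (vv 0) + inner ℝ y (vv 1)) ∧
      (inner ℝ y (vv 0) + inner ℝ y (vv 1) + inner ℝ y (vv 2) + inner ℝ y (vv 3) : ℝ) = 0 := by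
  have h := COVR_sqrt
  rw [inner_vv0, inner_vv1, inner_vv2, inner_vv3]
  refine ⟨by ring, by ring, ?_, by ring⟩
  linear_combination (-(y 2)) * h

private theorem COVR_fin {y : E} {a b c d : ℝ} (ha : inner ℝ y (vv 0) = a) (hb : inner ℝ y (vv 1) = b)
    (hc : inner ℝ y (vv 2) = c) (hd : inner ℝ y (vv 3) = d) (hs : a + b ≠ 0) (hp : |a + c| ≤ |a + b|)
    (hq : |a + d| ≤ |a + b|) : y ∈ Cn RR ∨ -y ∈ Cn RR := by
  obtain ⟨h0, h1, h2, h3⟩ := COVR_coord y
  rw [ha, hb, hc, hd] at h3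
  rw [ha, hb] at h0 h2
  rw [hc, hd] at h1
  refine COVR_crit' (s := a + b) (p := a + c) (q := a + d) ?_ ?_ h2 hs hp hq
  · linarith
  · linarith

theorem cover {x : E} (hx : x ≠ 0) : ∃ k : Fin 3, fr k x ∈ Cn RR ∨ -(fr k x) ∈ Cn RR := by
  obtain ⟨h0, h1, h2, h3⟩ := COVR_coord x
  obtain ⟨a, ha⟩ : ∃ a, a = (inner ℝ x (vv 0) : ℝ) := ⟨_, rfl⟩
  obtain ⟨b, hb⟩ : ∃ b, b = (inner ℝ x (vv 1) : ℝ) := ⟨_, rfl⟩
  obtain ⟨c, hc⟩ : ∃ c, c = (inner ℝ x (vv 2) : ℝ) := ⟨_, rfl⟩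
  obtain ⟨d, hd⟩ : ∃ d, d = (inner ℝ x (vv 3) : ℝ) := ⟨_, rfl⟩
  rw [← ha, ← hb, ← hc, ← hd] at h3
  rw [← ha, ← hb] at h0 h2
  rw [← hc, ← hd] at h1
  have hne : ¬ (a + b = 0 ∧ a + c = 0 ∧ a + d = 0) := by
    rintro ⟨k1, k2, k3⟩
    apply hx
    have z0 : x 0 = 0 := by rw [h0]; linarith
    have z1 : x 1 = 0 := by rw [h1]; linarith
    have z2 : x 2 = 0 := by rw [h2, k1, mul_zero]
    rw [← pt_eta x, z0, z1, z2]
    ext i
    fin_cases i <;> rfl
  have f10 : fr 1 (vv 0) = vv 0 := rf_other (by decide) (by decide) (by decide)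
  have f11 : fr 1 (vv 1) = vv 2 := rf_left (by decide)
  have f12 : fr 1 (vv 2) = vv 1 := rf_right (by decide)
  have f13 : fr 1 (vv 3) = vv 3 := rf_other (by decide) (by decide) (by decide)
  have f20 : fr 2 (vv 0) = vv 0 := rf_other (by decide) (by decide) (by decide)
  have f21 : fr 2 (vv 1) = vv 3 := rf_left (by decide)
  have f23 : fr 2 (vv 3) = vv 1 := rf_right (by decide)
  have f22 : fr 2 (vv 2) = vv 2 := rf_other (by decide) (by decide) (by decide)
  rcases le_total |a + c| |a + b| with h4 | h4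
  · rcases le_total |a + d| |a + b| with h5 | h5
    · refine ⟨0, COVR_fin (y := fr 0 x) (a := a) (b := b) (c := c) (d := d) ha.symm hb.symm hc.symm hd.symm ?_ h4 h5⟩
      intro h6
      rw [h6, abs_zero] at h4 h5
      exact hne ⟨h6, abs_eq_zero.1 (le_antisymm h4 (abs_nonneg _)), abs_eq_zero.1 (le_antisymm h5 (abs_nonneg _))⟩
    · refine ⟨2, COVR_fin (y := fr 2 x) (a := a) (b := d) (c := c) (d := b) (by rw [fr_inner, f20, ha])
        (by rw [fr_inner, f21, hd]) (by rw [fr_inner, f22, hc]) (by rw [fr_inner, f23, hb]) ?_ (h4.trans h5) h5⟩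
      intro h6
      rw [h6, abs_zero] at h5
      have h7 := le_antisymm h5 (abs_nonneg _)
      rw [h7] at h4
      exact hne ⟨abs_eq_zero.1 h7, abs_eq_zero.1 (le_antisymm h4 (abs_nonneg _)), h6⟩
  · rcases le_total |a + d| |a + c| with h5 | h5
    · refine ⟨1, COVR_fin (y := fr 1 x) (a := a) (b := c) (c := b) (d := d) (by rw [fr_inner, f10, ha])
        (by rw [fr_inner, f11, hc]) (by rw [fr_inner, f12, hb]) (by rw [fr_inner, f13, hd]) ?_ h4 h5⟩
      intro h6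
      rw [h6, abs_zero] at h4 h5
      exact hne ⟨abs_eq_zero.1 (le_antisymm h4 (abs_nonneg _)), h6, abs_eq_zero.1 (le_antisymm h5 (abs_nonneg _))⟩
    · refine ⟨2, COVR_fin (y := fr 2 x) (a := a) (b := d) (c := c) (d := b) (by rw [fr_inner, f20, ha])
        (by rw [fr_inner, f21, hd]) (by rw [fr_inner, f22, hc]) (by rw [fr_inner, f23, hb]) ?_ h5 (h4.trans h5)⟩
      intro h6
      rw [h6, abs_zero] at h5
      have h7 := le_antisymm h5 (abs_nonneg _)
      rw [h7] at h4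
      exact hne ⟨abs_eq_zero.1 (le_antisymm h4 (abs_nonneg _)), abs_eq_zero.1 h7, h6⟩

end Pool.Agent.MGE
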