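import Pool.Agent.MGE.Defs
import Pool.Agent.MEIS.POL
import Pool.Agent.MEIS.SIA
import Pool.Agent.MGE.VV
import Pool.Agent.MGE.FRF
import Pool.Agent.MGE.COVR
import Pool.Agent.MGE.CHI
/-!
SIC (130 lines). Sphere integral bounded by chart integrals.
PROOF. f is bounded on the unit sphere by compactness, hence bounded off 0 (degree 0), and continuous off 0. Extend f by 0 at 0
(or use F x = ENNReal.ofReal (f x), measurable after changing the value at 0: f is continuous on the open set {0}ᶜ, so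
Measurable of the piecewise function). polar_ball: (1/3) SI f = ∫ over ball \ {0} of f = toReal of the lintegral of ofReal f
(integral_eq_lintegral_of_nonneg_ae). ball \ {0} ⊆ ⋃_k (fr k ⁻¹' Cn RR ∪ (fun x => -(fr k x)) ⁻¹' Cn RR) by cover. lintegral_union
bound (lintegral_iUnion_le / measure theory: lintegral over a union ≤ sum). The linear isometry x ↦ fr k x (and x ↦ -(fr k x)) preserves
volume (LinearIsometryEquiv.measurePreserving) and the ball, and fr k is an involution: ∫⁻ over ball ∩ fr k⁻¹' Cn RR of F x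
= ∫⁻ over ball ∩ Cn RR of F (fr k x); same with the sign by evenness of f. Then chart_lint for x ↦ F (fr k x). RR is compact,
integrands are continuous and bounded, so lintegrals are finite; convert back with ofReal_integral_eq_lintegral_ofReal.
(P z ≠ 0 and fr k (P z) ≠ 0.)
-/
set_option autoImplicit false

open MeasureTheory Set Metric Pool.Agent.MEIS Pool.Agent.MSQ

namespace Pool.Agent.MGE

private theorem isClosed_RR : IsClosed RR := by
  have e1 : Continuous fun z : ℝ × ℝ => |z.1| := continuous_fst.abs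
  have e2 : Continuous fun z : ℝ × ℝ => |z.2| := continuous_snd.abs
  have h : RR = ({z : ℝ × ℝ | |z.1| ≤ cc} ∩ {z : ℝ × ℝ | |z.2| ≤ √2}) ∪
      ({z : ℝ × ℝ | |z.1| ≤ √2} ∩ {z : ℝ × ℝ | |z.2| ≤ cc}) := by
    ext z
    simp [RR]
  rw [h]
  exact ((isClosed_le e1 continuous_const).inter (isClosed_le e2 continuous_const)).union
    ((isClosed_le e1 continuous_const).inter (isClosed_le e2 continuous_const))

theorem measurableSet_RR : MeasurableSet RR := isClosed_RR.measurableSet

private theorem cc_le : cc ≤ √2 := by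
  have h0 := cc_pos
  have h1 := cc_sq
  apply Real.le_sqrt_of_sq_le
  rw [h1]; norm_num

private theorem isCompact_RR : IsCompact RR := by
  refine Metric.isCompact_of_isClosed_isBounded isClosed_RR ?_
  refine (Metric.isBounded_closedBall (x := (0 : ℝ × ℝ)) (r := √2)).subset ?_
  intro z hz
  rw [mem_closedBall_zero_iff, Prod.norm_def]
  have h := cc_le
  simp only [RR, Set.mem_ofPred_eq] at hz
  rcases hz with ⟨h1, h2⟩ | ⟨h1, h2⟩
  · exact max_le (by rw [Real.norm_eq_abs]; linarith) (by rw [Real.norm_eq_abs]; linarith)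
  · exact max_le (by rw [Real.norm_eq_abs]; linarith) (by rw [Real.norm_eq_abs]; linarith)

private theorem measurableSet_Cn {A : Set (ℝ × ℝ)} (hA : MeasurableSet A) : MeasurableSet (Cn A) := by
  have c : ∀ i : Fin 3, Measurable fun x : E => x i := fun i => by fun_prop
  have h1 : MeasurableSet {x : E | 0 < x 2} := measurableSet_lt measurable_const (c 2)
  have h2 : Measurable fun x : E => (x 0 / x 2, x 1 / x 2) :=
    ((c 0).div (c 2)).prodMk ((c 1).div (c 2))
  exact h1.inter (h2 hA)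

open Classical in
private noncomputable def g0 (f : E → ℝ) : E → ℝ := ({0}ᶜ : Set E).piecewise f (fun _ => 0)

private theorem g0_ne {f : E → ℝ} {x : E} (hx : x ≠ 0) : g0 f x = f x := by
  classical
  unfold g0
  exact Set.piecewise_eq_of_mem _ _ _ hx

private theorem g0_zero {f : E → ℝ} : g0 f 0 = 0 := by
  classical
  unfold g0
  exact Set.piecewise_eq_of_notMem _ _ _ (by simp)

private theorem g0_meas {f : E → ℝ} (hs : Sm 0 f) : Measurable (g0 f) := by
  classical
  have h : ContinuousOn f ({0}ᶜ : Set E) := hs.continuousOn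
  unfold g0
  exact h.measurable_piecewise continuousOn_const (measurableSet_singleton _).compl

private theorem pull {f : E → ℝ} (hs : Sm 0 f) (he : ∀ x, f (-x) = f x) (k : Fin 3)
    (φ : E ≃ₗᵢ[ℝ] E) (hφ : (∀ x, φ x = fr k x) ∨ (∀ x, φ x = -(fr k x))) :
    ∫⁻ x in ball (0 : E) 1 ∩ φ ⁻¹' Cn RR, ENNReal.ofReal (g0 f x) =
      ∫⁻ y in ball (0 : E) 1 ∩ Cn RR, ENNReal.ofReal (g0 f (fr k y)) := by
  have hm : Measurable fun x : E => ENNReal.ofReal (g0 f (fr k x)) :=
    ENNReal.measurable_ofReal.comp ((g0_meas hs).comp (fr k).continuous.measurable)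
  have hmS : MeasurableSet (ball (0 : E) 1 ∩ Cn RR) :=
    measurableSet_ball.inter (measurableSet_Cn measurableSet_RR)
  rw [← (LinearIsometryEquiv.measurePreserving φ).setLIntegral_comp_preimage hmS hm]
  have hset : φ ⁻¹' (ball (0 : E) 1 ∩ Cn RR) = ball (0 : E) 1 ∩ φ ⁻¹' Cn RR := by
    ext x
    simp
  rw [hset]
  refine lintegral_congr fun x => ?_
  rcases hφ with hφ | hφ
  · rw [hφ, fr_fr]
  · rw [hφ, map_neg, fr_fr]
    congr 1
    by_cases hx : x = 0
    · subst hx; rw [neg_zero]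
    · rw [g0_ne hx, g0_ne (neg_ne_zero.2 hx), he]

private theorem fr_P_ne (k : Fin 3) (z : ℝ × ℝ) : fr k (P z) ≠ 0 := by
  intro h
  exact P_ne z ((map_eq_zero_iff (fr k) (fr k).injective).1 h)

private theorem cont_lf : Continuous lf := by
  unfold lf
  fun_prop

private theorem chart {f : E → ℝ} (hs : Sm 0 f) (hh : Hom 0 f) (h0 : ∀ x, x ≠ 0 → 0 ≤ f x)
    (k : Fin 3) :
    ∫⁻ y in ball (0 : E) 1 ∩ Cn RR, ENNReal.ofReal (g0 f (fr k y)) =
      ENNReal.ofReal (∫ z in RR, f (fr k (P z)) / lf z ^ 3 / 3) := by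
  have hm : Measurable fun x : E => ENNReal.ofReal (g0 f (fr k x)) :=
    ENNReal.measurable_ofReal.comp ((g0_meas hs).comp (fr k).continuous.measurable)
  rw [chart_lint (fun x : E => ENNReal.ofReal (g0 f (fr k x))) hm ?_ RR measurableSet_RR]
  · have hc : Continuous fun z : ℝ × ℝ => f (fr k (P z)) / lf z ^ 3 / 3 := by
      have h : ContinuousOn f ({0}ᶜ : Set E) := hs.continuousOn
      have h1 : Continuous fun z : ℝ × ℝ => f (fr k (P z)) :=
        h.comp_continuous ((fr k).continuous.comp continuous_P) fun z => fr_P_ne k z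
      exact (h1.div (cont_lf.pow 3) fun z => (pow_pos (lf_pos z) 3).ne').div_const 3
    have hi : Integrable (fun z : ℝ × ℝ => f (fr k (P z)) / lf z ^ 3 / 3) (volume.restrict RR) :=
      hc.continuousOn.integrableOn_compact isCompact_RR
    rw [ofReal_integral_eq_lintegral_ofReal hi]
    · refine lintegral_congr fun z => ?_
      have hl := pow_pos (lf_pos z) 3
      rw [g0_ne (fr_P_ne k z), ← ENNReal.ofReal_mul (h0 _ (fr_P_ne k z))]
      congr 1
      field_simp
    · refine Filter.Eventually.of_forall fun z => ?_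
      have hl := pow_pos (lf_pos z) 3
      have := h0 _ (fr_P_ne k z)
      show (0 : ℝ) ≤ f (fr k (P z)) / lf z ^ 3 / 3
      positivity
  · intro t ht x hx
    have hx1 : fr k x ≠ 0 := fun h => hx ((map_eq_zero_iff (fr k) (fr k).injective).1 h)
    have hx2 : fr k (t • x) ≠ 0 := by
      rw [map_smul]
      exact smul_ne_zero ht.ne' hx1
    show ENNReal.ofReal (g0 f (fr k (t • x))) = ENNReal.ofReal (g0 f (fr k x))
    rw [g0_ne hx1, g0_ne hx2, map_smul, hh t ht _ hx1, zpow_zero, one_mul]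

theorem si_cover {f : E → ℝ} (hs : Sm 0 f) (hh : Hom 0 f) (h0 : ∀ x, x ≠ 0 → 0 ≤ f x)
    (he : ∀ x, f (-x) = f x) :
    SI f ≤ 2 * ∑ k : Fin 3, ∫ z in RR, f (fr k (P z)) / lf z ^ 3 := by
  have hpos : ∀ k : Fin 3, 0 ≤ ∫ z in RR, f (fr k (P z)) / lf z ^ 3 / 3 := by
    intro k
    refine integral_nonneg fun z => ?_
    have hl := pow_pos (lf_pos z) 3
    have := h0 _ (fr_P_ne k z)
    show (0 : ℝ) ≤ f (fr k (P z)) / lf z ^ 3 / 3
    positivity
  have g0nn : ∀ x, 0 ≤ g0 f x := by
    intro x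
    by_cases hx : x = 0
    · subst hx; rw [g0_zero]
    · rw [g0_ne hx]; exact h0 x hx
  have hp : (1 / 3) * SI f = ∫ x in ball (0 : E) 1 \ {0}, f x := (polar_ball hh).symm
  have hms : MeasurableSet (ball (0 : E) 1 \ {0}) := measurableSet_ball.diff (measurableSet_singleton _)
  have h1 : ∫ x in ball (0 : E) 1 \ {0}, f x =
      (∫⁻ x in ball (0 : E) 1 \ {0}, ENNReal.ofReal (g0 f x)).toReal := by
    rw [← integral_eq_lintegral_of_nonneg_ae (Filter.Eventually.of_forall g0nn)
      (g0_meas hs).aestronglyMeasurable]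
    refine setIntegral_congr_fun hms fun x hx => ?_
    exact (g0_ne (fun h => hx.2 (by simpa using h))).symm
  have hle : ∫⁻ x in ball (0 : E) 1 \ {0}, ENNReal.ofReal (g0 f x) ≤
      ENNReal.ofReal (∑ k : Fin 3, 2 * ∫ z in RR, f (fr k (P z)) / lf z ^ 3 / 3) := by
    let φ : Fin 3 → (E ≃ₗᵢ[ℝ] E) := fun k => (fr k).trans (LinearIsometryEquiv.neg ℝ)
    have hφ : ∀ k x, φ k x = -(fr k x) := fun k x => rfl
    have hsub : ball (0 : E) 1 \ {0} ⊆ ⋃ k : Fin 3,
        ((ball (0 : E) 1 ∩ (fr k) ⁻¹' Cn RR) ∪ (ball (0 : E) 1 ∩ (φ k) ⁻¹' Cn RR)) := by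
      intro x hx
      obtain ⟨k, hk⟩ := cover (x := x) (fun h => hx.2 (by simpa using h))
      refine mem_iUnion.2 ⟨k, ?_⟩
      rcases hk with hk | hk
      · exact Or.inl ⟨hx.1, hk⟩
      · refine Or.inr ⟨hx.1, ?_⟩
        rw [mem_preimage, hφ]
        exact hk
    refine (lintegral_mono_set hsub).trans ?_
    refine (lintegral_iUnion_le _ _).trans ?_
    rw [tsum_fintype, ENNReal.ofReal_sum_of_nonneg (fun k _ => mul_nonneg zero_le_two (hpos k))]
    refine Finset.sum_le_sum fun k _ => ?_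
    refine (lintegral_union_le _ _ _).trans ?_
    rw [pull hs he k (fr k) (Or.inl fun x => rfl), pull hs he k (φ k) (Or.inr (hφ k)),
      chart hs hh h0 k, two_mul, ENNReal.ofReal_add (hpos k) (hpos k)]
  have h2 : (1 / 3) * SI f ≤ ∑ k : Fin 3, 2 * ∫ z in RR, f (fr k (P z)) / lf z ^ 3 / 3 := by
    rw [hp, h1]
    exact ENNReal.toReal_le_of_le_ofReal (Finset.sum_nonneg fun k _ => mul_nonneg zero_le_two (hpos k)) hle
  have h3 : ∀ k : Fin 3, ∫ z in RR, f (fr k (P z)) / lf z ^ 3 / 3 =
      (∫ z in RR, f (fr k (P z)) / lf z ^ 3) / 3 := fun k => integral_div _ _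
  simp only [h3] at h2
  have h4 : ∑ k : Fin 3, 2 * ((∫ z in RR, f (fr k (P z)) / lf z ^ 3) / 3) =
      (2 / 3) * ∑ k : Fin 3, ∫ z in RR, f (fr k (P z)) / lf z ^ 3 := by
    rw [Finset.mul_sum]
    refine Finset.sum_congr rfl fun k _ => ?_
    ring
  rw [h4] at h2
  linarith

end Pool.Agent.MGE
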