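import Pool.Agent.MGE.Defs
import Pool.Agent.MGE.VV
import Pool.Agent.MSQ.JGood
/-!
ARI (150 lines). The density integrates to almost nothing over an arm (planar statement about jets).
PROOF. Let a, b, e be the second derivatives XX, YY, XY of J (first theorem: 0 ≤ Hess J ≤ Hess l as quadratic forms). With
p = lJ.fXX z, q = lJ.fYY z, r = lJ.fXY z: a(q-b) + b(p-a) - 2e(r-e) ≤ a q + b p - 2 e r [difference 2(ab - e^2) ≥ 0]
≤ 2(a + b) because 0 ≤ p, q ≤ 1, |r| ≤ 1 (l ≥ 1) and 2|e| ≤ a + b. lf ≤ 2 for |X| ≤ √2, |Y| ≤ √2 with min ≤ cc: here only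
x1, y1 bounds of the rectangle are given: lf z ≤ 3. Hence 0 ≤ dn ≤ 3 (a + b).
∫∫ a = ∫_Y (fX(x1,Y) - fX(x0,Y)) ≤ (y1-y0) 2η and ∫∫ b = ∫_X (fY(X,y1) - fY(X,y0)) ≤ (x1-x0) 2η (FTC:
intervalIntegral.integral_eq_sub_of_hasDerivAt from J.Good; Fubini intervalIntegral_swap for the first, continuity of all entries from
Jet.Good; monotonicity of interval integrals). Second theorem: same for K = l - J (second derivatives p-a, q-b, r-e): the
density is symmetric in J and l - J.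
-/
set_option autoImplicit false

open MeasureTheory Set Metric Pool.Agent.MEIS Pool.Agent.MSQ

namespace Pool.Agent.MGE

private theorem ARI_cont {f fX fY : ℝ × ℝ → ℝ} (h : D1 f fX fY) : Continuous f :=
  continuous_iff_continuousAt.2 fun z => (h z).continuousAt

private theorem ARI_dX {f fX fY : ℝ × ℝ → ℝ} (h : D1 f fX fY) (X Y : ℝ) :
    HasDerivAt (fun t => f (t, Y)) (fX (X, Y)) X := by
  have h1 := h (X, Y)
  have h2 : HasDerivAt (fun t : ℝ => (t, Y)) ((1 : ℝ), (0 : ℝ)) X :=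
    (hasDerivAt_id X).prodMk (hasDerivAt_const X Y)
  have h3 := h1.comp_hasDerivAt X h2
  have e : (fX (X, Y) • ContinuousLinearMap.fst ℝ ℝ ℝ + fY (X, Y) • ContinuousLinearMap.snd ℝ ℝ ℝ)
      ((1 : ℝ), (0 : ℝ)) = fX (X, Y) := by simp
  rw [e] at h3
  exact h3

private theorem ARI_dY {f fX fY : ℝ × ℝ → ℝ} (h : D1 f fX fY) (X Y : ℝ) :
    HasDerivAt (fun t => f (X, t)) (fY (X, Y)) Y := by
  have h1 := h (X, Y)
  have h2 : HasDerivAt (fun t : ℝ => (X, t)) ((0 : ℝ), (1 : ℝ)) Y :=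
    (hasDerivAt_const Y X).prodMk (hasDerivAt_id Y)
  have h3 := h1.comp_hasDerivAt Y h2
  have e : (fX (X, Y) • ContinuousLinearMap.fst ℝ ℝ ℝ + fY (X, Y) • ContinuousLinearMap.snd ℝ ℝ ℝ)
      ((0 : ℝ), (1 : ℝ)) = fY (X, Y) := by simp
  rw [e] at h3
  exact h3

private theorem ARI_core {a b d F H : ℝ × ℝ → ℝ} {x0 x1 y0 y1 η gX gY : ℝ} (hx : x0 ≤ x1)
    (hy : y0 ≤ y1) (ha : Continuous a) (hb : Continuous b) (hd : Continuous d)
    (hF : ∀ X Y, HasDerivAt (fun t => F (t, Y)) (a (X, Y)) X)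
    (hH : ∀ X Y, HasDerivAt (fun t => H (X, t)) (b (X, Y)) Y)
    (hle : ∀ X Y, x0 ≤ X → X ≤ x1 → y0 ≤ Y → Y ≤ y1 → d (X, Y) ≤ 3 * (a (X, Y) + b (X, Y)))
    (hX : ∀ X Y, x0 ≤ X → X ≤ x1 → y0 ≤ Y → Y ≤ y1 → |F (X, Y) - gX| ≤ η)
    (hY : ∀ X Y, x0 ≤ X → X ≤ x1 → y0 ≤ Y → Y ≤ y1 → |H (X, Y) - gY| ≤ η) :
    ∫ X in x0..x1, ∫ Y in y0..y1, d (X, Y) ≤ 6 * η * ((x1 - x0) + (y1 - y0)) := by
  have cY : ∀ f : ℝ × ℝ → ℝ, Continuous f → ∀ X, Continuous fun Y => f (X, Y) := fun f hf X =>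
    hf.comp (Continuous.prodMk_right X)
  have cX : ∀ f : ℝ × ℝ → ℝ, Continuous f → ∀ Y, Continuous fun X => f (X, Y) := fun f hf Y =>
    hf.comp (Continuous.prodMk_left Y)
  have c2 : ∀ f : ℝ × ℝ → ℝ, Continuous f → Continuous (fun X => ∫ Y in y0..y1, f (X, Y)) := by
    intro f hf
    exact intervalIntegral.continuous_parametric_intervalIntegral_of_continuous'
      (f := fun X Y => f (X, Y)) hf _ _
  have c3 : ∀ f : ℝ × ℝ → ℝ, Continuous f → Continuous (fun Y => ∫ X in x0..x1, f (X, Y)) := by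
    intro f hf
    refine intervalIntegral.continuous_parametric_intervalIntegral_of_continuous'
      (f := fun Y X => f (X, Y)) ?_ _ _
    exact hf.comp continuous_swap
  have hab : Continuous fun z : ℝ × ℝ => 3 * (a z + b z) := by fun_prop
  have s1 : ∫ X in x0..x1, ∫ Y in y0..y1, d (X, Y) ≤
      ∫ X in x0..x1, ∫ Y in y0..y1, 3 * (a (X, Y) + b (X, Y)) := by
    refine intervalIntegral.integral_mono_on hx ((c2 d hd).intervalIntegrable _ _)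
      ((c2 _ hab).intervalIntegrable _ _) fun X hX1 => ?_
    exact intervalIntegral.integral_mono_on hy ((cY d hd X).intervalIntegrable _ _)
      ((cY _ hab X).intervalIntegrable _ _) fun Y hY1 => hle X Y hX1.1 hX1.2 hY1.1 hY1.2
  have s2 : ∫ X in x0..x1, ∫ Y in y0..y1, 3 * (a (X, Y) + b (X, Y)) =
      3 * ((∫ X in x0..x1, ∫ Y in y0..y1, a (X, Y)) + ∫ X in x0..x1, ∫ Y in y0..y1, b (X, Y)) := by
    have h1 : ∀ X, ∫ Y in y0..y1, 3 * (a (X, Y) + b (X, Y)) =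
        3 * ((∫ Y in y0..y1, a (X, Y)) + ∫ Y in y0..y1, b (X, Y)) := by
      intro X
      rw [intervalIntegral.integral_const_mul, intervalIntegral.integral_add
        ((cY a ha X).intervalIntegrable _ _) ((cY b hb X).intervalIntegrable _ _)]
    simp_rw [h1]
    rw [intervalIntegral.integral_const_mul, intervalIntegral.integral_add
      ((c2 a ha).intervalIntegrable _ _) ((c2 b hb).intervalIntegrable _ _)]
  have s3 : ∫ X in x0..x1, ∫ Y in y0..y1, b (X, Y) ≤ (x1 - x0) * (2 * η) := by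
    have h1 : ∀ X, ∫ Y in y0..y1, b (X, Y) = H (X, y1) - H (X, y0) := fun X =>
      intervalIntegral.integral_eq_sub_of_hasDerivAt (fun Y _ => hH X Y)
        ((cY b hb X).intervalIntegrable _ _)
    have h2 : ∫ X in x0..x1, ∫ Y in y0..y1, b (X, Y) ≤ ∫ _ in x0..x1, 2 * η := by
      refine intervalIntegral.integral_mono_on hx ((c2 b hb).intervalIntegrable _ _)
        (continuous_const.intervalIntegrable _ _) fun X hX1 => ?_
      rw [h1]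
      have h3 := abs_le.1 (hY X y1 hX1.1 hX1.2 hy le_rfl)
      have h4 := abs_le.1 (hY X y0 hX1.1 hX1.2 le_rfl hy)
      linarith
    rwa [intervalIntegral.integral_const, smul_eq_mul] at h2
  have s4 : ∫ X in x0..x1, ∫ Y in y0..y1, a (X, Y) ≤ (y1 - y0) * (2 * η) := by
    have hsw : ∫ X in x0..x1, ∫ Y in y0..y1, a (X, Y) = ∫ Y in y0..y1, ∫ X in x0..x1, a (X, Y) := by
      refine MeasureTheory.intervalIntegral_intervalIntegral_swap ?_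
      have hc : Continuous (Function.uncurry fun X Y => a (X, Y)) := ha
      exact (hc.continuousOn.integrableOn_compact
        (isCompact_uIcc.prod isCompact_uIcc)).mono_set
        (Set.prod_mono Set.uIoc_subset_uIcc Set.uIoc_subset_uIcc)
    have h1 : ∀ Y, ∫ X in x0..x1, a (X, Y) = F (x1, Y) - F (x0, Y) := fun Y =>
      intervalIntegral.integral_eq_sub_of_hasDerivAt (fun X _ => hF X Y)
        ((cX a ha Y).intervalIntegrable _ _)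
    have h2 : ∫ Y in y0..y1, ∫ X in x0..x1, a (X, Y) ≤ ∫ _ in y0..y1, 2 * η := by
      refine intervalIntegral.integral_mono_on hy ((c3 a ha).intervalIntegrable _ _)
        (continuous_const.intervalIntegrable _ _) fun Y hY1 => ?_
      rw [h1]
      have h3 := abs_le.1 (hX x1 Y hx le_rfl hY1.1 hY1.2)
      have h4 := abs_le.1 (hX x0 Y le_rfl hx hY1.1 hY1.2)
      linarith
    rw [hsw]
    rwa [intervalIntegral.integral_const, smul_eq_mul] at h2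
  rw [s2] at s1
  linarith

private theorem ARI_alg {l a b e p q r : ℝ} (hl : 0 ≤ l) (hl3 : l ≤ 3) (ha : 0 ≤ a) (hb : 0 ≤ b)
    (he : e ^ 2 ≤ a * b) (hp : p ≤ 1) (hq : q ≤ 1) (hr : |r| ≤ 1) :
    l * (a * (q - b) + b * (p - a) - 2 * e * (r - e)) / 2 ≤ 3 * (a + b) := by
  have h1 : |e| ≤ (a + b) / 2 := by
    refine abs_le_of_sq_le_sq ?_ (by linarith)
    nlinarith [sq_nonneg (a - b)]
  have h2 : -(e * r) ≤ (a + b) / 2 := by
    calc -(e * r) ≤ |e * r| := neg_le_abs _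
      _ = |e| * |r| := abs_mul _ _
      _ ≤ (a + b) / 2 * 1 := mul_le_mul h1 hr (abs_nonneg _) (by linarith)
      _ = (a + b) / 2 := mul_one _
  have h3 : a * (q - b) + b * (p - a) - 2 * e * (r - e) ≤ 2 * (a + b) := by
    nlinarith [mul_nonneg ha (sub_nonneg.2 hq), mul_nonneg hb (sub_nonneg.2 hp)]
  have h4 := mul_le_mul_of_nonneg_left h3 hl
  have h5 := mul_le_mul_of_nonneg_right hl3 (add_nonneg ha hb)
  linarith

private theorem ARI_l (X Y : ℝ) (h1 : |X| ≤ 2) (h2 : |Y| ≤ 2) :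
    lf (X, Y) ≤ 3 ∧ lJ.fXX (X, Y) ≤ 1 ∧ lJ.fYY (X, Y) ≤ 1 ∧ |lJ.fXY (X, Y)| ≤ 1 := by
  have hp := lf_pos (X, Y)
  have hsq : lf (X, Y) ^ 2 = 1 + X ^ 2 + Y ^ 2 := by
    unfold lf
    rw [Real.sq_sqrt (by positivity)]
  have hX : X ^ 2 ≤ 4 := by
    have := sq_le_sq' (abs_le.1 h1).1 (abs_le.1 h1).2
    linarith
  have hY : Y ^ 2 ≤ 4 := by
    have := sq_le_sq' (abs_le.1 h2).1 (abs_le.1 h2).2
    linarith
  have hX0 := sq_nonneg X
  have hY0 := sq_nonneg Y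
  have h3 : lf (X, Y) ≤ 3 := by
    refine (sq_le_sq₀ hp.le (by norm_num)).1 ?_
    rw [hsq]
    linarith
  have h4 : 1 ≤ lf (X, Y) := by
    by_contra hcon
    push Not at hcon
    nlinarith
  have h5 : 1 + X ^ 2 + Y ^ 2 ≤ lf (X, Y) ^ 3 := by
    have : lf (X, Y) ^ 3 = lf (X, Y) ^ 2 * lf (X, Y) := by ring
    rw [this, hsq]
    have h6 : 0 ≤ (1 + X ^ 2 + Y ^ 2) * (lf (X, Y) - 1) := mul_nonneg (by positivity) (by linarith)
    linarith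
  have h6 : 0 < lf (X, Y) ^ 3 := by positivity
  refine ⟨h3, ?_, ?_, ?_⟩
  · change (1 + Y ^ 2) / lf (X, Y) ^ 3 ≤ 1
    rw [div_le_one h6]
    linarith
  · change (1 + X ^ 2) / lf (X, Y) ^ 3 ≤ 1
    rw [div_le_one h6]
    linarith
  · change |-(X * Y) / lf (X, Y) ^ 3| ≤ 1
    rw [abs_div, abs_of_pos h6, div_le_one h6, abs_neg, abs_le]
    constructor <;> nlinarith [sq_nonneg (X - Y), sq_nonneg (X + Y)]

private theorem ARI_lfc : Continuous lf := by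
  unfold lf
  fun_prop

private theorem ARI_dc {J : Jet} (hJ : J.Good) : Continuous (dn J) := by
  have a1 := ARI_cont hJ.dXX
  have a2 := ARI_cont hJ.dXY
  have a3 := ARI_cont hJ.dYY
  have b1 := ARI_cont good_lJ.dXX
  have b2 := ARI_cont good_lJ.dXY
  have b3 := ARI_cont good_lJ.dYY
  have b4 := ARI_lfc
  unfold dn
  fun_prop

private theorem ARI_in {X x0 x1 : ℝ} (h0 : -2 ≤ x0) (h1 : x1 ≤ 2) (h2 : x0 ≤ X) (h3 : X ≤ x1) : |X| ≤ 2 :=
  abs_le.2 ⟨h0.trans h2, h3.trans h1⟩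

/-- rectangle inside the disc where `lf ≤ 3` -/
theorem arm_int {J : Jet} (hJ : J.Good) {x0 x1 y0 y1 η gX gY : ℝ} (hx : x0 ≤ x1) (hy : y0 ≤ y1)
    (hx0 : -2 ≤ x0) (hx1 : x1 ≤ 2) (hy0 : -2 ≤ y0) (hy1 : y1 ≤ 2)
    (h1 : ∀ z, 0 ≤ J.fXX z) (h2 : ∀ z, 0 ≤ J.fYY z) (h3 : ∀ z, J.fXY z ^ 2 ≤ J.fXX z * J.fYY z)
    (hX : ∀ X Y, x0 ≤ X → X ≤ x1 → y0 ≤ Y → Y ≤ y1 → |J.fX (X, Y) - gX| ≤ η)
    (hY : ∀ X Y, x0 ≤ X → X ≤ x1 → y0 ≤ Y → Y ≤ y1 → |J.fY (X, Y) - gY| ≤ η) :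
    ∫ X in x0..x1, ∫ Y in y0..y1, dn J (X, Y) ≤ 6 * η * ((x1 - x0) + (y1 - y0)) := by
  refine ARI_core hx hy (ARI_cont hJ.dXX) (ARI_cont hJ.dYY) (ARI_dc hJ) (fun X Y => ARI_dX hJ.dX X Y)
    (fun X Y => ARI_dY hJ.dY X Y) ?_ hX hY
  intro X Y k1 k2 k3 k4
  obtain ⟨l1, l2, l3, l4⟩ := ARI_l X Y (ARI_in hx0 hx1 k1 k2) (ARI_in hy0 hy1 k3 k4)
  have h := ARI_alg (lf_pos (X, Y)).le l1 (h1 (X, Y)) (h2 (X, Y)) (h3 (X, Y)) l2 l3 l4
  exact h

theorem arm_int' {J : Jet} (hJ : J.Good) {x0 x1 y0 y1 η gX gY : ℝ} (hx : x0 ≤ x1) (hy : y0 ≤ y1)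
    (hx0 : -2 ≤ x0) (hx1 : x1 ≤ 2) (hy0 : -2 ≤ y0) (hy1 : y1 ≤ 2)
    (h1 : ∀ z, J.fXX z ≤ lJ.fXX z) (h2 : ∀ z, J.fYY z ≤ lJ.fYY z)
    (h3 : ∀ z, (lJ.fXY z - J.fXY z) ^ 2 ≤ (lJ.fXX z - J.fXX z) * (lJ.fYY z - J.fYY z))
    (hX : ∀ X Y, x0 ≤ X → X ≤ x1 → y0 ≤ Y → Y ≤ y1 → |lJ.fX (X, Y) - J.fX (X, Y) - gX| ≤ η)
    (hY : ∀ X Y, x0 ≤ X → X ≤ x1 → y0 ≤ Y → Y ≤ y1 → |lJ.fY (X, Y) - J.fY (X, Y) - gY| ≤ η) :
    ∫ X in x0..x1, ∫ Y in y0..y1, dn J (X, Y) ≤ 6 * η * ((x1 - x0) + (y1 - y0)) := by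
  have a1 := (ARI_cont good_lJ.dXX).sub (ARI_cont hJ.dXX)
  have a3 := (ARI_cont good_lJ.dYY).sub (ARI_cont hJ.dYY)
  refine ARI_core (a := fun z => lJ.fXX z - J.fXX z) (b := fun z => lJ.fYY z - J.fYY z)
    (F := fun z => lJ.fX z - J.fX z) (H := fun z => lJ.fY z - J.fY z) hx hy a1 a3 (ARI_dc hJ)
    (fun X Y => (ARI_dX good_lJ.dX X Y).sub (ARI_dX hJ.dX X Y))
    (fun X Y => (ARI_dY good_lJ.dY X Y).sub (ARI_dY hJ.dY X Y)) ?_ hX hY
  intro X Y k1 k2 k3 k4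
  obtain ⟨l1, l2, l3, l4⟩ := ARI_l X Y (ARI_in hx0 hx1 k1 k2) (ARI_in hy0 hy1 k3 k4)
  have h := ARI_alg (lf_pos (X, Y)).le l1 (sub_nonneg.2 (h1 (X, Y))) (sub_nonneg.2 (h2 (X, Y)))
    (h3 (X, Y)) l2 l3 l4
  refine le_trans (le_of_eq ?_) h
  unfold dn
  ring

end Pool.Agent.MGE
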