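import Pool.Agent.MGE.Defs
import Pool.Agent.MEIS.GRD
import Pool.Agent.MEIS.PDR
import Pool.Agent.MGE.VV
import Pool.Agent.MGE.JGD
/-!
GCL (120 lines). Closeness of the gradient to a vertex.
PROOF. g = gradient vector of G at x (toLp 2 fun k => pd k G x), w = vv i - g, n = ‖w‖. If n = 0 done. Support inequality for y ↦ G(-y)
at -(-x): SB_support at -x applied to -y: (∑ (-y)_k pd k G (-x)) ≤ G (-y) (drop the τ term, it is ≥ 0 by Cauchy-Schwarz), with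
pd_wid pd k G (-x) = g_k - x_k/‖x‖: so -<y,g> + <y,x>/‖x‖ ≤ G(-y) = ‖y‖ - G y, i.e. G y ≤ ‖y‖ - <x,y>/‖x‖ + <g,y>.
For y = x + v, <g,x> = G x (SB_self): G (x+v) ≤ (‖x+v‖ - ‖x‖ - <x,v>/‖x‖) + G x + <g,v>, and the bracket is ≤ ‖v‖^2/(2‖x‖)
(sqrt(a^2+b) ≤ a + b/(2a)). Lower bound TG: <x+v, vv i> - ε‖x+v‖ ≤ G (x+v). With hup:
<w, v> ≤ 2ε‖x‖ + ε(‖x‖+‖v‖) + ‖v‖^2/(2‖x‖). Take v = (t‖x‖/n) w, t = 2√ε: n t ≤ 3ε + εt + t²/2, n ≤ 3√ε/2 + ε + √ε ≤ 4√ε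
(ε ≤ √ε). |pd k G x - vv i k| ≤ n.
-/
set_option autoImplicit false

open MeasureTheory Set Metric Pool.Agent.MEIS Pool.Agent.MSQ

namespace Pool.Agent.MGE

theorem grad_close {G : E → ℝ} {R τ ε : ℝ} (h : SB G R τ) (hτ : 0 ≤ τ) (hG : TG G ε) (hε : 0 < ε)
    (hε1 : ε ≤ 1) {i : Fin 4} {x : E} (hx : x ≠ 0)
    (hup : G x ≤ inner ℝ x (vv i) + 2 * ε * ‖x‖) (k : Fin 3) :
    |pd k G x - vv i k| ≤ 4 * √ε := by
  have ha : 0 < ‖x‖ := norm_pos_iff.2 hx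
  obtain ⟨g, hg⟩ : ∃ g : E, ∀ k, g k = pd k G x := ⟨WithLp.toLp 2 (fun k => pd k G x), fun k => rfl⟩
  have hself : inner ℝ g x = G x := by
    rw [grd_inner]
    simp only [hg]
    exact SB_self h hx
  have hupper : ∀ y : E, G y ≤ ‖y‖ - inner ℝ x y / ‖x‖ + inner ℝ g y := by
    intro y
    have h1 := SB_support h (x := -x) (neg_ne_zero.2 hx) (-y)
    have h2 : (∑ i, (-y) i * pd i G (-x)) = -(inner ℝ g y) + inner ℝ x y / ‖x‖ := by
      rw [grd_inner, grd_inner, Finset.sum_div, ← Finset.sum_neg_distrib, ← Finset.sum_add_distrib]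
      refine Finset.sum_congr rfl fun k _ => ?_
      have h3 := pd_wid h hx k
      have h4 : pd k G (-x) = pd k G x - x k / ‖x‖ := by linarith
      rw [h4, hg]
      have h5 : (-y) k = -(y k) := rfl
      rw [h5]
      ring
    have h3 : 0 ≤ τ * (‖-y‖ - inner ℝ (-x) (-y) / ‖-x‖) := by
      refine mul_nonneg hτ (sub_nonneg.2 ?_)
      rw [div_le_iff₀ (by rw [norm_neg]; exact ha)]
      calc inner ℝ (-x) (-y) ≤ ‖-x‖ * ‖-y‖ := real_inner_le_norm _ _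
        _ = ‖-y‖ * ‖-x‖ := mul_comm _ _
    have h4 := h.wid y
    rw [h2] at h1
    linarith
  obtain ⟨w, hw⟩ : ∃ w : E, w = vv i - g := ⟨_, rfl⟩
  have key : ∀ v : E, inner ℝ v w ≤ ‖v‖ ^ 2 / (2 * ‖x‖) + 3 * ε * ‖x‖ + ε * ‖v‖ := by
    intro v
    have h1 := hupper (x + v)
    have h2 := hG i (x + v)
    have h3 : ‖x + v‖ ≤ ‖x‖ + ‖v‖ := norm_add_le _ _
    have h4 : ‖x + v‖ ^ 2 = ‖x‖ ^ 2 + 2 * inner ℝ x v + ‖v‖ ^ 2 := norm_add_sq_real x v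
    have h5 : ‖x + v‖ ≤ ‖x‖ + inner ℝ x v / ‖x‖ + ‖v‖ ^ 2 / (2 * ‖x‖) := by
      have e : ‖x‖ + inner ℝ x v / ‖x‖ + ‖v‖ ^ 2 / (2 * ‖x‖) = (‖x‖ ^ 2 + ‖x + v‖ ^ 2) / (2 * ‖x‖) := by
        rw [h4]
        field_simp
        ring
      rw [e, le_div_iff₀ (by positivity)]
      nlinarith [sq_nonneg (‖x + v‖ - ‖x‖)]
    rw [inner_add_right x x v, inner_add_right g x v, hself, real_inner_self_eq_norm_sq, add_div] at h1
    have h6 : ‖x‖ ^ 2 / ‖x‖ = ‖x‖ := by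
      rw [sq, mul_div_assoc, div_self ha.ne', mul_one]
    rw [h6] at h1
    rw [inner_add_left] at h2
    rw [hw, inner_sub_right, real_inner_comm g v]
    have h7 : ε * ‖x + v‖ ≤ ε * (‖x‖ + ‖v‖) := mul_le_mul_of_nonneg_left h3 hε.le
    have h8 : inner ℝ v g = inner ℝ g v := real_inner_comm _ _
    linarith
  have hs : 0 < √ε := Real.sqrt_pos.2 hε
  have hss : √ε * √ε = ε := Real.mul_self_sqrt hε.le
  have hs1 : √ε ≤ 1 := Real.sqrt_le_one.2 hε1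
  have hn : ‖w‖ ≤ 4 * √ε := by
    rcases eq_or_ne w 0 with h0 | h0
    · rw [h0, norm_zero]
      positivity
    · have hn : 0 < ‖w‖ := norm_pos_iff.2 h0
      have h1 := key ((2 * √ε * ‖x‖ / ‖w‖) • w)
      have h2 : ‖(2 * √ε * ‖x‖ / ‖w‖) • w‖ = 2 * √ε * ‖x‖ := by
        rw [norm_smul, Real.norm_eq_abs, abs_of_nonneg (by positivity)]
        field_simp
      have h3 : inner ℝ ((2 * √ε * ‖x‖ / ‖w‖) • w) w = 2 * √ε * ‖x‖ * ‖w‖ := by
        rw [inner_smul_left, real_inner_self_eq_norm_sq]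
        simp only [conj_trivial]
        field_simp
      rw [h2, h3] at h1
      have h4 : (2 * √ε * ‖x‖) ^ 2 / (2 * ‖x‖) = 2 * ε * ‖x‖ := by
        rw [mul_pow, mul_pow, sq (√ε), hss]
        field_simp
      rw [h4] at h1
      have h5 : √ε * ‖x‖ * (2 * ‖w‖) ≤ √ε * ‖x‖ * (5 * √ε + 2 * ε) := by
        have e1 : √ε * ‖x‖ * (5 * √ε + 2 * ε) = 5 * (√ε * √ε) * ‖x‖ + ε * (2 * √ε * ‖x‖) := by ring
        rw [e1, hss]
        linarith
      have h6 : 2 * ‖w‖ ≤ 5 * √ε + 2 * ε := le_of_mul_le_mul_left h5 (by positivity)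
      have h7 : ε ≤ √ε := by
        calc ε = √ε * √ε := hss.symm
          _ ≤ √ε * 1 := mul_le_mul_of_nonneg_left hs1 hs.le
          _ = √ε := mul_one _
      linarith
  have h1 : |w k| ≤ ‖w‖ := by
    have := PiLp.norm_apply_le w k
    rwa [Real.norm_eq_abs] at this
  have h2 : w k = -(pd k G x - vv i k) := by
    rw [hw, ← hg k]
    change vv i k - g k = _
    ring
  rw [h2, abs_neg] at h1
  exact h1.trans hn

end Pool.Agent.MGE
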