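import Pool.Agent.MGE.Defs
import Pool.Agent.MEIS.GRD
import Pool.Agent.MGE.VV
/-!
UPX (110 lines). Upper bounds on the four arms by convexity.
PROOF. For i ≠ j, w = vv i - vv j: G w = ‖w‖ - G (-w) ≤ 1 - (<-w, vv j> - ε) = 1/2 + ε because <vv j - vv i, vv j> = 1/2
(vv_sub_inner, vv_sub_norm, h.wid). For x = α w1 + β w2 + γ w3 with w's the three edges at vertex i and α, β, γ ≥ 0:
G x ≤ (α+β+γ)(1/2+ε) (h.sub with τ = 0 part: norm triangle, h.hom) and (α+β+γ)/2 = <x, vv i> ≤ ‖x‖ ‖vv i‖, ‖vv i‖ ≤ 1, so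
G x ≤ <x, vv i> + 2ε‖x‖. Coefficients (c = cc): i = 0, x = P(X,Y), X ≥ c, |Y| ≤ c: α = X - c on vv 0 - vv 1 = (1,0,0),
β = √2/2 - Y on vv 0 - vv 2 = (1/2,-1/2,c), γ = √2/2 + Y on vv 0 - vv 3 = (1/2,1/2,c) (β+γ = √2, c√2 = 1; √2/2 = c).
i = 1: reflect X. i = 3, x = -P(X,Y), Y ≥ c, |X| ≤ c: edges vv 3 - vv 2 = (0,-1,0), vv 3 - vv 0 = (-1/2,-1/2,-c),
vv 3 - vv 1 = (1/2,-1/2,-c): α = Y - c, β = √2/2 + X, γ = √2/2 - X. i = 2: reflect Y.
-/
set_option autoImplicit false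

open MeasureTheory Set Metric Pool.Agent.MEIS Pool.Agent.MSQ

namespace Pool.Agent.MGE

private theorem upx_edge {G : E → ℝ} {R τ ε : ℝ} (h : SB G R τ) (hG : TG G ε) {i j : Fin 4}
    (hij : i ≠ j) : G (vv i - vv j) ≤ 1 / 2 + ε := by
  have h1 := h.wid (vv i - vv j)
  have h2 := hG j (-(vv i - vv j))
  rw [norm_neg, vv_sub_norm hij] at h2
  rw [vv_sub_norm hij] at h1
  have h3 : inner ℝ (-(vv i - vv j)) (vv j) = (1 / 2 : ℝ) := by
    rw [neg_sub]; exact vv_sub_inner hij.symm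
  rw [h3] at h2
  linarith

private theorem upx_add {G : E → ℝ} {R τ : ℝ} (h : SB G R τ) (hτ : 0 ≤ τ) (x y : E) :
    G (x + y) ≤ G x + G y := by
  have h1 := h.sub x y
  have h2 : 0 ≤ τ * (‖x‖ + ‖y‖ - ‖x + y‖) :=
    mul_nonneg hτ (by linarith [norm_add_le x y])
  linarith

private theorem upx_comb {G : E → ℝ} {R τ ε : ℝ} (h : SB G R τ) (hτ : 0 ≤ τ) (hG : TG G ε)
    (hε : 0 ≤ ε) {i j k l : Fin 4} (hj : i ≠ j) (hk : i ≠ k) (hl : i ≠ l) {α β γ : ℝ}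
    (hα : 0 ≤ α) (hβ : 0 ≤ β) (hγ : 0 ≤ γ) {x : E}
    (hx : x = α • (vv i - vv j) + β • (vv i - vv k) + γ • (vv i - vv l)) :
    G x ≤ inner ℝ x (vv i) + 2 * ε * ‖x‖ := by
  have e1 := upx_edge h hG hj
  have e2 := upx_edge h hG hk
  have e3 := upx_edge h hG hl
  have hin : inner ℝ x (vv i) = (α + β + γ) / 2 := by
    rw [hx, inner_add_left, inner_add_left, real_inner_smul_left, real_inner_smul_left,
      real_inner_smul_left, vv_sub_inner hj, vv_sub_inner hk, vv_sub_inner hl]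
    ring
  have hle : inner ℝ x (vv i) ≤ ‖x‖ := by
    have h1 := real_inner_le_norm x (vv i)
    have h2 : ‖vv i‖ ≤ 1 := by
      have h3 := vv_norm_sq i
      nlinarith [norm_nonneg (vv i)]
    nlinarith [norm_nonneg x]
  have hGx : G x ≤ α * G (vv i - vv j) + β * G (vv i - vv k) + γ * G (vv i - vv l) := by
    rw [hx]
    have h1 := upx_add h hτ (α • (vv i - vv j) + β • (vv i - vv k)) (γ • (vv i - vv l))
    have h2 := upx_add h hτ (α • (vv i - vv j)) (β • (vv i - vv k))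
    rw [h.hom α hα, h.hom β hβ] at h2
    rw [h.hom γ hγ] at h1
    linarith
  have f1 := mul_le_mul_of_nonneg_left e1 hα
  have f2 := mul_le_mul_of_nonneg_left e2 hβ
  have f3 := mul_le_mul_of_nonneg_left e3 hγ
  have f4 : (α + β + γ) * ε ≤ 2 * ε * ‖x‖ := by
    have : α + β + γ ≤ 2 * ‖x‖ := by linarith
    calc (α + β + γ) * ε ≤ (2 * ‖x‖) * ε := mul_le_mul_of_nonneg_right this hε
      _ = 2 * ε * ‖x‖ := by ring
  rw [hin]
  linarith

private theorem upx_ext {x y : E} (h0 : x 0 = y 0) (h1 : x 1 = y 1) (h2 : x 2 = y 2) : x = y := by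
  ext i
  fin_cases i
  · exact h0
  · exact h1
  · exact h2

private theorem upx_v0 : vv 0 = pt (1 / 2) 0 (cc / 2) := rfl
private theorem upx_v1 : vv 1 = pt (-1 / 2) 0 (cc / 2) := rfl
private theorem upx_v2 : vv 2 = pt 0 (1 / 2) (-cc / 2) := rfl
private theorem upx_v3 : vv 3 = pt 0 (-1 / 2) (-cc / 2) := rfl

theorem up0 {G : E → ℝ} {R τ ε : ℝ} (h : SB G R τ) (hτ : 0 ≤ τ) (hG : TG G ε) (hε : 0 ≤ ε) {X Y : ℝ}
    (hX : cc ≤ X) (hY : |Y| ≤ cc) : G (P (X, Y)) ≤ inner ℝ (P (X, Y)) (vv 0) + 2 * ε * ‖P (X, Y)‖ := by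
  have hY' := abs_le.mp hY
  have hc := cc_sq
  refine upx_comb h hτ hG hε (i := 0) (j := 1) (k := 2) (l := 3) (by decide) (by decide) (by decide)
    (α := X - cc) (β := cc - Y) (γ := cc + Y) (by linarith) (by linarith [hY'.2])
    (by linarith [hY'.1]) ?_
  apply upx_ext
  · simp only [P, upx_v0, upx_v1, upx_v2, upx_v3, PiLp.add_apply, PiLp.smul_apply, PiLp.sub_apply, pt0,
      smul_eq_mul]
    ring
  · simp only [P, upx_v0, upx_v1, upx_v2, upx_v3, PiLp.add_apply, PiLp.smul_apply, PiLp.sub_apply, pt1,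
      smul_eq_mul]
    ring
  · simp only [P, upx_v0, upx_v1, upx_v2, upx_v3, PiLp.add_apply, PiLp.smul_apply, PiLp.sub_apply, pt2,
      smul_eq_mul]
    linear_combination -2 * hc

theorem up1 {G : E → ℝ} {R τ ε : ℝ} (h : SB G R τ) (hτ : 0 ≤ τ) (hG : TG G ε) (hε : 0 ≤ ε) {X Y : ℝ}
    (hX : X ≤ -cc) (hY : |Y| ≤ cc) : G (P (X, Y)) ≤ inner ℝ (P (X, Y)) (vv 1) + 2 * ε * ‖P (X, Y)‖ := by
  have hY' := abs_le.mp hY
  have hc := cc_sq
  refine upx_comb h hτ hG hε (i := 1) (j := 0) (k := 2) (l := 3) (by decide) (by decide) (by decide)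
    (α := -X - cc) (β := cc - Y) (γ := cc + Y) (by linarith) (by linarith [hY'.2])
    (by linarith [hY'.1]) ?_
  apply upx_ext
  · simp only [P, upx_v0, upx_v1, upx_v2, upx_v3, PiLp.add_apply, PiLp.smul_apply, PiLp.sub_apply, pt0,
      smul_eq_mul]
    ring
  · simp only [P, upx_v0, upx_v1, upx_v2, upx_v3, PiLp.add_apply, PiLp.smul_apply, PiLp.sub_apply, pt1,
      smul_eq_mul]
    ring
  · simp only [P, upx_v0, upx_v1, upx_v2, upx_v3, PiLp.add_apply, PiLp.smul_apply, PiLp.sub_apply, pt2,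
      smul_eq_mul]
    linear_combination -2 * hc

theorem up3 {G : E → ℝ} {R τ ε : ℝ} (h : SB G R τ) (hτ : 0 ≤ τ) (hG : TG G ε) (hε : 0 ≤ ε) {X Y : ℝ}
    (hY : cc ≤ Y) (hX : |X| ≤ cc) :
    G (-P (X, Y)) ≤ inner ℝ (-P (X, Y)) (vv 3) + 2 * ε * ‖-P (X, Y)‖ := by
  have hX' := abs_le.mp hX
  have hc := cc_sq
  refine upx_comb h hτ hG hε (i := 3) (j := 2) (k := 0) (l := 1) (by decide) (by decide) (by decide)
    (α := Y - cc) (β := cc + X) (γ := cc - X) (by linarith) (by linarith [hX'.1])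
    (by linarith [hX'.2]) ?_
  apply upx_ext
  · simp only [P, upx_v0, upx_v1, upx_v2, upx_v3, PiLp.add_apply, PiLp.smul_apply, PiLp.sub_apply,
      PiLp.neg_apply, pt0, smul_eq_mul]
    ring
  · simp only [P, upx_v0, upx_v1, upx_v2, upx_v3, PiLp.add_apply, PiLp.smul_apply, PiLp.sub_apply,
      PiLp.neg_apply, pt1, smul_eq_mul]
    ring
  · simp only [P, upx_v0, upx_v1, upx_v2, upx_v3, PiLp.add_apply, PiLp.smul_apply, PiLp.sub_apply,
      PiLp.neg_apply, pt2, smul_eq_mul]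
    linear_combination 2 * hc

theorem up2 {G : E → ℝ} {R τ ε : ℝ} (h : SB G R τ) (hτ : 0 ≤ τ) (hG : TG G ε) (hε : 0 ≤ ε) {X Y : ℝ}
    (hY : Y ≤ -cc) (hX : |X| ≤ cc) :
    G (-P (X, Y)) ≤ inner ℝ (-P (X, Y)) (vv 2) + 2 * ε * ‖-P (X, Y)‖ := by
  have hX' := abs_le.mp hX
  have hc := cc_sq
  refine upx_comb h hτ hG hε (i := 2) (j := 3) (k := 0) (l := 1) (by decide) (by decide) (by decide)
    (α := -Y - cc) (β := cc + X) (γ := cc - X) (by linarith) (by linarith [hX'.1])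
    (by linarith [hX'.2]) ?_
  apply upx_ext
  · simp only [P, upx_v0, upx_v1, upx_v2, upx_v3, PiLp.add_apply, PiLp.smul_apply, PiLp.sub_apply,
      PiLp.neg_apply, pt0, smul_eq_mul]
    ring
  · simp only [P, upx_v0, upx_v1, upx_v2, upx_v3, PiLp.add_apply, PiLp.smul_apply, PiLp.sub_apply,
      PiLp.neg_apply, pt1, smul_eq_mul]
    ring
  · simp only [P, upx_v0, upx_v1, upx_v2, upx_v3, PiLp.add_apply, PiLp.smul_apply, PiLp.sub_apply,
      PiLp.neg_apply, pt2, smul_eq_mul]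
    linear_combination 2 * hc

end Pool.Agent.MGE
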