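import Pool.Agent.MGE.Defs
import Pool.Agent.MGE.VV
import Pool.Agent.MGE.JGD
import Pool.Agent.MGE.GCL
import Pool.Agent.MGE.UPX
/-!
ARX (100 lines). Values and gradients of the jet on the arms.
PROOF. P z ≠ 0, ‖P z‖ = lf z ≤ 3 for |X|, |Y| ≤ √2 (bounds 2ε l ≤ 8√ε since ε ≤ √ε). X arms: up0/up1 give the hypothesis hup of
grad_close for i = 0 or 1 at x = P z; values: TG below and up above, inner_vv0: <P z, vv 0> = X/2 + cc/2, vv 0 0 = 1/2, vv 0 1 = 0.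
(|Y| ≤ cc, X ≥ cc gives sign X = 1, |X| = X.) Y arms: up3/up2 at -P z, i = 3 or 2: <-P z, vv 3> = Y/2 + cc/2;
lf z - f z = G (-P z) (h.wid); lJ.fX z - fX z = -(pd 0 G (-P z)) by pd_wid, and vv 3 0 = 0, vv 3 1 = -1/2.
-/
set_option autoImplicit false

open MeasureTheory Set Metric Pool.Agent.MEIS Pool.Agent.MSQ

namespace Pool.Agent.MGE

private theorem arx_lf {X Y a : ℝ} (hX : X ^ 2 ≤ 2) (hY : Y ^ 2 ≤ 1 / 2) (ha : ‖P (X, Y)‖ = a) : a ≤ 2 := by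
  rw [← ha, norm_P, lf]
  apply Real.sqrt_le_iff.2
  constructor
  · norm_num
  · simp only
    linarith

private theorem arx_sqrt2 {X : ℝ} (hX : |X| ≤ √2) : X ^ 2 ≤ 2 := by
  have h1 : |X| ^ 2 ≤ √2 ^ 2 := pow_le_pow_left₀ (abs_nonneg X) hX 2
  rw [sq_abs, Real.sq_sqrt (by norm_num)] at h1
  exact h1

private theorem arx_cc {X : ℝ} (hX : |X| ≤ cc) : X ^ 2 ≤ 1 / 2 := by
  have h1 : |X| ^ 2 ≤ cc ^ 2 := pow_le_pow_left₀ (abs_nonneg X) hX 2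
  rw [sq_abs, cc_sq] at h1
  exact h1

private theorem arx_eps {ε : ℝ} (hε : 0 < ε) (hε1 : ε ≤ 1) : ε ≤ √ε := by
  have h1 : √ε ≤ 1 := Real.sqrt_le_one.mpr hε1
  have h2 := Real.sqrt_nonneg ε
  have h3 := Real.mul_self_sqrt hε.le
  nlinarith

private theorem arx_val {G : E → ℝ} {ε : ℝ} (hG : TG G ε) (hε : 0 < ε)
    (hε1 : ε ≤ 1) {i : Fin 4} {x : E} (hx : ‖x‖ ≤ 2) (hup : G x ≤ inner ℝ x (vv i) + 2 * ε * ‖x‖) :
    |G x - inner ℝ x (vv i)| ≤ 8 * √ε := by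
  have h1 := hG i x
  have h2 := arx_eps hε hε1
  have h3 : ε * ‖x‖ ≤ √ε * 2 := mul_le_mul h2 hx (norm_nonneg x) (Real.sqrt_nonneg ε)
  have h4 := Real.sqrt_nonneg ε
  rw [abs_le]
  constructor
  · linarith
  · linarith

private theorem arx_v00 : vv 0 0 = 1 / 2 := pt0 _ _ _
private theorem arx_v01 : vv 0 1 = 0 := pt1 _ _ _
private theorem arx_v10 : vv 1 0 = -1 / 2 := pt0 _ _ _
private theorem arx_v11 : vv 1 1 = 0 := pt1 _ _ _
private theorem arx_v20 : vv 2 0 = 0 := pt0 _ _ _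
private theorem arx_v21 : vv 2 1 = 1 / 2 := pt1 _ _ _
private theorem arx_v30 : vv 3 0 = 0 := pt0 _ _ _
private theorem arx_v31 : vv 3 1 = -1 / 2 := pt1 _ _ _

private theorem arx_P0 (X Y : ℝ) : P (X, Y) 0 = X := pt0 _ _ _
private theorem arx_P1 (X Y : ℝ) : P (X, Y) 1 = Y := pt1 _ _ _
private theorem arx_P2 (X Y : ℝ) : P (X, Y) 2 = 1 := pt2 _ _ _

private theorem arx_sub {G : E → ℝ} {R τ : ℝ} (h : SB G R τ) (X Y : ℝ) :
    lf (X, Y) - (jG G).f (X, Y) = G (-P (X, Y)) ∧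
    lJ.fX (X, Y) - (jG G).fX (X, Y) = -pd 0 G (-P (X, Y)) ∧
    lJ.fY (X, Y) - (jG G).fY (X, Y) = -pd 1 G (-P (X, Y)) := by
  have h0 := h.wid (P (X, Y))
  have h1 := pd_wid h (P_ne (X, Y)) 0
  have h2 := pd_wid h (P_ne (X, Y)) 1
  rw [norm_P] at h0 h1 h2
  rw [arx_P0] at h1
  rw [arx_P1] at h2
  have e0 : (jG G).f (X, Y) = G (P (X, Y)) := rfl
  have e1 : (jG G).fX (X, Y) = pd 0 G (P (X, Y)) := rfl
  have e2 : (jG G).fY (X, Y) = pd 1 G (P (X, Y)) := rfl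
  have e3 : lJ.fX (X, Y) = X / lf (X, Y) := rfl
  have e4 : lJ.fY (X, Y) = Y / lf (X, Y) := rfl
  rw [e0, e1, e2, e3, e4]
  refine ⟨by linarith, by linarith, by linarith⟩

theorem arm_X {G : E → ℝ} {R τ ε : ℝ} (h : SB G R τ) (hτ : 0 ≤ τ) (hG : TG G ε) (hε : 0 < ε)
    (hε1 : ε ≤ 1) {X Y : ℝ} (hX : cc ≤ |X|) (hX2 : |X| ≤ √2) (hY : |Y| ≤ cc) :
    |(jG G).f (X, Y) - (|X| / 2 + cc / 2)| ≤ 8 * √ε ∧
    |(jG G).fX (X, Y) - SignType.sign X / 2| ≤ 4 * √ε ∧ |(jG G).fY (X, Y)| ≤ 4 * √ε := by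
  have hn : ‖P (X, Y)‖ ≤ 2 := arx_lf (arx_sqrt2 hX2) (arx_cc hY) rfl
  have hc := cc_pos
  have e0 : (jG G).f (X, Y) = G (P (X, Y)) := rfl
  have e1 : (jG G).fX (X, Y) = pd 0 G (P (X, Y)) := rfl
  have e2 : (jG G).fY (X, Y) = pd 1 G (P (X, Y)) := rfl
  rw [e0, e1, e2]
  rcases le_total 0 X with h0 | h0
  · rw [abs_of_nonneg h0] at hX ⊢
    have hup := up0 h hτ hG hε.le hX hY
    have g0 := grad_close h hτ hG hε hε1 (P_ne (X, Y)) hup 0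
    have g1 := grad_close h hτ hG hε hε1 (P_ne (X, Y)) hup 1
    have hv := arx_val hG hε hε1 hn hup
    rw [inner_vv0, arx_P0, arx_P2, one_mul] at hv
    rw [arx_v00] at g0
    rw [arx_v01, sub_zero] at g1
    rw [sign_pos (lt_of_lt_of_le hc hX), SignType.coe_one]
    exact ⟨hv, g0, g1⟩
  · rw [abs_of_nonpos h0] at hX ⊢
    have hup := up1 h hτ hG hε.le (show X ≤ -cc by linarith) hY
    have g0 := grad_close h hτ hG hε hε1 (P_ne (X, Y)) hup 0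
    have g1 := grad_close h hτ hG hε hε1 (P_ne (X, Y)) hup 1
    have hv := arx_val hG hε hε1 hn hup
    rw [inner_vv1, arx_P0, arx_P2, one_mul, ← neg_div] at hv
    rw [arx_v10] at g0
    rw [arx_v11, sub_zero] at g1
    rw [sign_neg (show X < 0 by linarith), SignType.coe_neg_one]
    exact ⟨hv, g0, g1⟩

theorem arm_Y {G : E → ℝ} {R τ ε : ℝ} (h : SB G R τ) (hτ : 0 ≤ τ) (hG : TG G ε) (hε : 0 < ε)
    (hε1 : ε ≤ 1) {X Y : ℝ} (hY : cc ≤ |Y|) (hY2 : |Y| ≤ √2) (hX : |X| ≤ cc) :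
    |lf (X, Y) - (jG G).f (X, Y) - (|Y| / 2 + cc / 2)| ≤ 8 * √ε ∧
    |lJ.fX (X, Y) - (jG G).fX (X, Y)| ≤ 4 * √ε ∧
    |lJ.fY (X, Y) - (jG G).fY (X, Y) - SignType.sign Y / 2| ≤ 4 * √ε := by
  have hn : ‖-P (X, Y)‖ ≤ 2 := by
    rw [norm_neg, norm_P, lf]
    have h1 := arx_sqrt2 hY2
    have h2 := arx_cc hX
    apply Real.sqrt_le_iff.2
    constructor
    · norm_num
    · simp only
      linarith
  have hc := cc_pos
  have hne : -P (X, Y) ≠ 0 := neg_ne_zero.mpr (P_ne (X, Y))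
  obtain ⟨e0, e1, e2⟩ := arx_sub h X Y
  rw [e0, e1, e2]
  rcases le_total 0 Y with h0 | h0
  · rw [abs_of_nonneg h0] at hY ⊢
    have hup := up3 h hτ hG hε.le hY hX
    have g0 := grad_close h hτ hG hε hε1 hne hup 0
    have g1 := grad_close h hτ hG hε hε1 hne hup 1
    have hv := arx_val hG hε hε1 hn hup
    rw [inner_vv3, PiLp.neg_apply, PiLp.neg_apply, arx_P1, arx_P2] at hv
    rw [arx_v30, sub_zero] at g0
    rw [arx_v31] at g1
    rw [sign_pos (lt_of_lt_of_le hc hY), SignType.coe_one, abs_neg]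
    refine ⟨?_, g0, ?_⟩
    · have : G (-P (X, Y)) - (Y / 2 + cc / 2) = G (-P (X, Y)) - (-(-Y / 2) - -1 * (cc / 2)) := by ring
      rw [this]; exact hv
    · have : -pd 1 G (-P (X, Y)) - 1 / 2 = -(pd 1 G (-P (X, Y)) - -1 / 2) := by ring
      rw [this, abs_neg]; exact g1
  · rw [abs_of_nonpos h0] at hY ⊢
    have hup := up2 h hτ hG hε.le (show Y ≤ -cc by linarith) hX
    have g0 := grad_close h hτ hG hε hε1 hne hup 0
    have g1 := grad_close h hτ hG hε hε1 hne hup 1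
    have hv := arx_val hG hε hε1 hn hup
    rw [inner_vv2, PiLp.neg_apply, PiLp.neg_apply, arx_P1, arx_P2] at hv
    rw [arx_v20, sub_zero] at g0
    rw [arx_v21] at g1
    rw [sign_neg (show Y < 0 by linarith), SignType.coe_neg_one, abs_neg]
    refine ⟨?_, g0, ?_⟩
    · have : G (-P (X, Y)) - (-Y / 2 + cc / 2) = G (-P (X, Y)) - (-Y / 2 - -1 * (cc / 2)) := by ring
      rw [this]; exact hv
    · have : -pd 1 G (-P (X, Y)) - -1 / 2 = -(pd 1 G (-P (X, Y)) - 1 / 2) := by ring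
      rw [this, abs_neg]; exact g1

end Pool.Agent.MGE
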