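import Pool.Agent.MGE.Defs
import Pool.Agent.MGE.VV
import Pool.Agent.MGE.JGD
import Pool.Agent.MGE.JHS
import Pool.Agent.MGE.ARX
/-!
HYP (80 lines). The hypotheses of the square theorem hold.
PROOF. good: jG_good h.sm. hXX .. ldet: hess_pos, hess_neg. low: TG for i = 0 (X ≥ 0) or i = 1 (X < 0), inner_vv0/1 at P z,
ε‖P z‖ ≤ ε√3 ≤ 8√ε. upp: G (P z) = lf z - G (-P z), TG at -P z for i = 3 (Y ≥ 0) or 2. aX*, aY*: arm_X, arm_Y with 1 ≤ √2.
-/
set_option autoImplicit false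

open MeasureTheory Set Metric Pool.Agent.MEIS Pool.Agent.MSQ

namespace Pool.Agent.MGE

private theorem hyp_lf {X Y : ℝ} (hX : |X| ≤ 1) (hY : |Y| ≤ 1) : ‖P (X, Y)‖ ≤ 2 := by
  rw [norm_P, lf]
  have h1 : X ^ 2 ≤ 1 := by
    rw [← sq_abs]; exact pow_le_one₀ (abs_nonneg X) hX
  have h2 : Y ^ 2 ≤ 1 := by
    rw [← sq_abs]; exact pow_le_one₀ (abs_nonneg Y) hY
  apply Real.sqrt_le_iff.2
  constructor
  · norm_num
  · simp only
    linarith

private theorem hyp_P0 (X Y : ℝ) : P (X, Y) 0 = X := pt0 _ _ _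
private theorem hyp_P1 (X Y : ℝ) : P (X, Y) 1 = Y := pt1 _ _ _
private theorem hyp_P2 (X Y : ℝ) : P (X, Y) 2 = 1 := pt2 _ _ _

private theorem hyp_eps {ε : ℝ} (hε : 0 < ε) (hε1 : ε ≤ 1) {x : E} (hx : ‖x‖ ≤ 2) :
    ε * ‖x‖ ≤ 8 * √ε := by
  have h1 : √ε ≤ 1 := Real.sqrt_le_one.mpr hε1
  have h2 := Real.sqrt_nonneg ε
  have h3 := Real.mul_self_sqrt hε.le
  have h4 : ε ≤ √ε := by nlinarith
  have h5 : ε * ‖x‖ ≤ √ε * 2 := mul_le_mul h4 hx (norm_nonneg x) h2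
  linarith

private theorem hyp_low {G : E → ℝ} {ε : ℝ} (hG : TG G ε) (hε : 0 < ε) (hε1 : ε ≤ 1) {X Y : ℝ}
    (hX : |X| ≤ 1) (hY : |Y| ≤ 1) : |X| / 2 + cc / 2 - 8 * √ε ≤ G (P (X, Y)) := by
  have h1 := hyp_eps hε hε1 (hyp_lf hX hY)
  rcases le_total 0 X with h0 | h0
  · have h2 := hG 0 (P (X, Y))
    rw [inner_vv0, hyp_P0, hyp_P2, one_mul] at h2
    rw [abs_of_nonneg h0]
    linarith
  · have h2 := hG 1 (P (X, Y))
    rw [inner_vv1, hyp_P0, hyp_P2, one_mul] at h2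
    rw [abs_of_nonpos h0]
    linarith

private theorem hyp_upp {G : E → ℝ} {R τ ε : ℝ} (h : SB G R τ) (hG : TG G ε) (hε : 0 < ε)
    (hε1 : ε ≤ 1) {X Y : ℝ} (hX : |X| ≤ 1) (hY : |Y| ≤ 1) :
    G (P (X, Y)) ≤ lf (X, Y) - |Y| / 2 - cc / 2 + 8 * √ε := by
  have hn : ‖-P (X, Y)‖ ≤ 2 := by rw [norm_neg]; exact hyp_lf hX hY
  have h1 := hyp_eps hε hε1 hn
  have h3 := h.wid (P (X, Y))
  rw [norm_P] at h3
  rcases le_total 0 Y with h0 | h0
  · have h2 := hG 3 (-P (X, Y))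
    rw [inner_vv3, PiLp.neg_apply, PiLp.neg_apply, hyp_P1, hyp_P2] at h2
    rw [abs_of_nonneg h0]
    linarith
  · have h2 := hG 2 (-P (X, Y))
    rw [inner_vv2, PiLp.neg_apply, PiLp.neg_apply, hyp_P1, hyp_P2] at h2
    rw [abs_of_nonpos h0]
    linarith

private theorem hyp_one : (1 : ℝ) ≤ √2 := by
  rw [← Real.sqrt_one]
  exact Real.sqrt_le_sqrt (by norm_num)

theorem hyp_jG {G : E → ℝ} {R τ ε : ℝ} (h : SB G R τ) (hτ : 0 ≤ τ) (hG : TG G ε) (hε : 0 < ε)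
    (hε1 : 8 * √ε ≤ 1) : Hyp (jG G) (8 * √ε) := by
  have hs := Real.sqrt_pos.mpr hε
  have hss := Real.mul_self_sqrt hε.le
  have he : ε ≤ 1 := by nlinarith
  have h1 := hyp_one
  refine
    { good := jG_good h.sm
      pos := by linarith
      le1 := hε1
      hXX := fun z => (hess_pos h hτ z).1
      hYY := fun z => (hess_pos h hτ z).2.1
      hdet := fun z => (hess_pos h hτ z).2.2
      lXX := fun z => (hess_neg h hτ z).1
      lYY := fun z => (hess_neg h hτ z).2.1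
      ldet := fun z => (hess_neg h hτ z).2.2
      low := fun X Y hX hY => hyp_low hG hε he hX hY
      upp := fun X Y hX hY => hyp_upp h hG hε he hX hY
      aX0 := fun X Y hX hX1 hY => (arm_X h hτ hG hε he hX (hX1.trans h1) hY).1
      aX1 := fun X Y hX hX1 hY => ((arm_X h hτ hG hε he hX (hX1.trans h1) hY).2.1).trans (by linarith)
      aX2 := fun X Y hX hX1 hY => ((arm_X h hτ hG hε he hX (hX1.trans h1) hY).2.2).trans (by linarith)
      aY0 := fun X Y hX hY hY1 => (arm_Y h hτ hG hε he hY (hY1.trans h1) hX).1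
      aY1 := fun X Y hX hY hY1 => ((arm_Y h hτ hG hε he hY (hY1.trans h1) hX).2.1).trans (by linarith)
      aY2 := fun X Y hX hY hY1 => ((arm_Y h hτ hG hε he hY (hY1.trans h1) hX).2.2).trans (by linarith) }

end Pool.Agent.MGE
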