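import Pool.Agent.MGE.Defs
import Pool.Agent.MGE.VV
/-!
RRS (90 lines). The cross is a square and four rectangles.
PROOF. RR ⊆ union of the five closed rectangles. setIntegral over a union ≤ sum for a nonnegative integrable function
(setIntegral_mono_set, or setIntegral_union_le via measures; f is continuous so integrable on compact sets). A rectangle integral
∫ z in Icc a b ×ˢ Icc c d, f z = ∫ X in a..b, ∫ Y in c..d, f (X,Y) (setIntegral_prod, intervalIntegral.integral_of_le,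
integral_Icc_eq_integral_Ioc).
-/
set_option autoImplicit false

open MeasureTheory Set Metric Pool.Agent.MEIS Pool.Agent.MSQ

namespace Pool.Agent.MGE

private theorem RRS_union {f : ℝ × ℝ → ℝ} {s t : Set (ℝ × ℝ)} (hs : MeasurableSet s) (ht : MeasurableSet t)
    (hfs : IntegrableOn f s) (hft : IntegrableOn f t) (h0 : ∀ z, 0 ≤ f z) :
    ∫ z in s ∪ t, f z ≤ (∫ z in s, f z) + ∫ z in t, f z := by
  rw [← union_diff_self, setIntegral_union disjoint_sdiff_right (ht.diff hs) hfs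
    (hft.mono_set diff_subset)]
  have h : ∫ z in t \ s, f z ≤ ∫ z in t, f z :=
    setIntegral_mono_set hft (Filter.Eventually.of_forall h0)
      (HasSubset.Subset.eventuallyLE diff_subset)
  linarith

private theorem RRS_rect {f : ℝ × ℝ → ℝ} (hf : Continuous f) {a b c d : ℝ} (hab : a ≤ b) (hcd : c ≤ d) :
    ∫ z in Icc a b ×ˢ Icc c d, f z = ∫ X in a..b, ∫ Y in c..d, f (X, Y) := by
  have hI : IntegrableOn f (Icc a b ×ˢ Icc c d) (volume.prod volume) := by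
    rw [← Measure.volume_eq_prod]
    exact hf.continuousOn.integrableOn_compact (isCompact_Icc.prod isCompact_Icc)
  rw [Measure.volume_eq_prod, setIntegral_prod f hI, intervalIntegral.integral_of_le hab,
    integral_Icc_eq_integral_Ioc]
  refine setIntegral_congr_fun measurableSet_Ioc fun x _ => ?_
  simp only [integral_Icc_eq_integral_Ioc, intervalIntegral.integral_of_le hcd]

theorem rr_split {f : ℝ × ℝ → ℝ} (hf : Continuous f) (h0 : ∀ z, 0 ≤ f z) :
    ∫ z in RR, f z ≤ (∫ X in (-cc)..cc, ∫ Y in (-cc)..cc, f (X, Y)) +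
      ((∫ X in cc..√2, ∫ Y in (-cc)..cc, f (X, Y)) + (∫ X in (-√2)..(-cc), ∫ Y in (-cc)..cc, f (X, Y)) +
        ((∫ X in (-cc)..cc, ∫ Y in cc..√2, f (X, Y)) +
          ∫ X in (-cc)..cc, ∫ Y in (-√2)..(-cc), f (X, Y))) := by
  have hc := cc_pos
  have hc2 : cc ≤ √2 := by
    rw [Real.le_sqrt hc.le (by norm_num), cc_sq]
    norm_num
  have hK : ∀ a b c d : ℝ, IntegrableOn f (Icc a b ×ˢ Icc c d) := fun a b c d =>
    hf.continuousOn.integrableOn_compact (isCompact_Icc.prod isCompact_Icc)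
  have hM : ∀ a b c d : ℝ, MeasurableSet (Icc a b ×ˢ Icc c d) := fun a b c d =>
    measurableSet_Icc.prod measurableSet_Icc
  have hsub : RR ⊆ (Icc (-cc) cc ×ˢ Icc (-cc) cc) ∪ (((Icc cc √2 ×ˢ Icc (-cc) cc) ∪
      (Icc (-√2) (-cc) ×ˢ Icc (-cc) cc)) ∪
      ((Icc (-cc) cc ×ˢ Icc cc √2) ∪ (Icc (-cc) cc ×ˢ Icc (-√2) (-cc)))) := by
    rintro ⟨x, y⟩ h
    simp only [RR, mem_setOf_eq, abs_le] at h
    simp only [mem_union, mem_prod, mem_Icc]
    rcases h with ⟨⟨h1, h2⟩, h3, h4⟩ | ⟨⟨h1, h2⟩, h3, h4⟩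
    · rcases le_total y cc with h5 | h5
      · rcases le_total (-cc) y with h6 | h6
        · exact Or.inl ⟨⟨h1, h2⟩, h6, h5⟩
        · exact Or.inr (Or.inr (Or.inr ⟨⟨h1, h2⟩, h3, h6⟩))
      · exact Or.inr (Or.inr (Or.inl ⟨⟨h1, h2⟩, h5, h4⟩))
    · rcases le_total x cc with h5 | h5
      · rcases le_total (-cc) x with h6 | h6
        · exact Or.inl ⟨⟨h6, h5⟩, h3, h4⟩
        · exact Or.inr (Or.inl (Or.inr ⟨⟨h1, h6⟩, h3, h4⟩))
      · exact Or.inr (Or.inl (Or.inl ⟨⟨h5, h2⟩, h3, h4⟩))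
  have h1 := RRS_union ((hM cc √2 (-cc) cc)) (hM (-√2) (-cc) (-cc) cc) (hK _ _ _ _) (hK _ _ _ _) h0
  have h2 := RRS_union ((hM (-cc) cc cc √2)) (hM (-cc) cc (-√2) (-cc)) (hK _ _ _ _) (hK _ _ _ _) h0
  have h3 := RRS_union (((hM cc √2 (-cc) cc)).union (hM (-√2) (-cc) (-cc) cc))
    (((hM (-cc) cc cc √2)).union (hM (-cc) cc (-√2) (-cc)))
    ((hK _ _ _ _).union (hK _ _ _ _)) ((hK _ _ _ _).union (hK _ _ _ _)) h0
  have h4 := RRS_union (hM (-cc) cc (-cc) cc) ((((hM cc √2 (-cc) cc)).union (hM (-√2) (-cc) (-cc) cc)).union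
    (((hM (-cc) cc cc √2)).union (hM (-cc) cc (-√2) (-cc)))) (hK _ _ _ _)
    (((hK _ _ _ _).union (hK _ _ _ _)).union ((hK _ _ _ _).union (hK _ _ _ _))) h0
  have h5 : ∫ z in RR, f z ≤ ∫ z in (Icc (-cc) cc ×ˢ Icc (-cc) cc) ∪ (((Icc cc √2 ×ˢ Icc (-cc) cc) ∪
      (Icc (-√2) (-cc) ×ˢ Icc (-cc) cc)) ∪
      ((Icc (-cc) cc ×ˢ Icc cc √2) ∪ (Icc (-cc) cc ×ˢ Icc (-√2) (-cc)))), f z :=
    setIntegral_mono_set ((hK _ _ _ _).union
      (((hK _ _ _ _).union (hK _ _ _ _)).union ((hK _ _ _ _).union (hK _ _ _ _))))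
      (Filter.Eventually.of_forall h0) (HasSubset.Subset.eventuallyLE hsub)
  rw [RRS_rect hf (by linarith) (by linarith)] at h4
  rw [RRS_rect hf hc2 (by linarith), RRS_rect hf (by linarith) (by linarith)] at h1
  rw [RRS_rect hf (by linarith) hc2, RRS_rect hf (by linarith) (by linarith)] at h2
  linarith

end Pool.Agent.MGE
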