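import Pool.Agent.MGE.Defs
import Pool.Agent.MGE.VV
/-!
FRM (120 lines). Moving a regular tetrahedron to standard position.
PROOF. e_0 = p 0 - p 1, e_1 = p 2 - p 3, e_2 = (√2/2) • (p 0 + p 1 - p 2 - p 3) are orthonormal: all inner products of differences
follow from <p i - p k, p j - p k> = (1/2)(‖p i - p k‖² + ‖p j - p k‖² - ‖p i - p j‖²) = 1/2 for distinct i, j, k (write everything in
terms of a = p 0 - p 3, b = p 1 - p 3, d = p 2 - p 3 with ‖.‖² = 1 and inner products 1/2: e_0 = a - b, e_1 = d,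
e_2 = (√2/2)(a + b - d)). Orthonormal family of 3 vectors in dimension 3: OrthonormalBasis (basisOfOrthonormalOfCardEqFinrank /
OrthonormalBasis.mk with span = ⊤), φ = its repr (E ≃ₗᵢ EuclideanSpace ℝ (Fin 3) = E). With o = (1/4)(p 0 + p 1 + p 2 + p 3):
p 0 - o = e_0/2 + (√2/4) e_2, p 1 - o = -e_0/2 + (√2/4) e_2, p 2 - o = e_1/2 - (√2/4) e_2, p 3 - o = -e_1/2 - (√2/4) e_2 and
√2/4 = cc/2. φ (e_i) = single i 1.
-/
set_option autoImplicit false

open MeasureTheory Set Metric Pool.Agent.MEIS Pool.Agent.MSQ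

namespace Pool.Agent.MGE

private theorem frm_inner {a b : E} (ha : ‖a‖ = 1) (hb : ‖b‖ = 1) (hab : ‖a - b‖ = 1) :
    inner ℝ a b = 1 / 2 := by
  have h := norm_sub_sq_real a b
  rw [ha, hb, hab] at h
  linarith

private theorem frm_ortho {a b d : E} (ha : ‖a‖ = 1) (hb : ‖b‖ = 1) (hd : ‖d‖ = 1)
    (hab : ‖a - b‖ = 1) (had : ‖a - d‖ = 1) (hbd : ‖b - d‖ = 1) :
    Orthonormal ℝ ![a - b, d, (√2 / 2) • (a + b - d)] := by
  have iab : inner ℝ a b = 1 / 2 := frm_inner ha hb hab
  have iad : inner ℝ a d = 1 / 2 := frm_inner ha hd had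
  have ibd : inner ℝ b d = 1 / 2 := frm_inner hb hd hbd
  have iba : inner ℝ b a = 1 / 2 := by rw [real_inner_comm]; exact iab
  have ida : inner ℝ d a = 1 / 2 := by rw [real_inner_comm]; exact iad
  have idb : inner ℝ d b = 1 / 2 := by rw [real_inner_comm]; exact ibd
  have iaa : inner ℝ a a = 1 := by rw [real_inner_self_eq_norm_sq, ha]; norm_num
  have ibb : inner ℝ b b = 1 := by rw [real_inner_self_eq_norm_sq, hb]; norm_num
  have idd : inner ℝ d d = 1 := by rw [real_inner_self_eq_norm_sq, hd]; norm_num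
  have h2 : √2 * √2 = 2 := Real.mul_self_sqrt (by norm_num)
  constructor
  · intro i
    have key : ∀ x : E, inner ℝ x x = 1 → ‖x‖ = 1 := by
      intro x hx
      rw [real_inner_self_eq_norm_sq] at hx
      have h0 := norm_nonneg x
      nlinarith
    fin_cases i
    · exact hab
    · exact hd
    · apply key
      change inner ℝ ((√2 / 2) • (a + b - d)) ((√2 / 2) • (a + b - d)) = 1
      simp only [inner_smul_left, inner_smul_right, inner_add_left, inner_add_right,
        inner_sub_left, inner_sub_right, iab, iad, ibd, iba, ida, idb, iaa, ibb, idd]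
      simp
      linear_combination (1 / 2 : ℝ) * h2
  · have h01 : inner ℝ (a - b) d = 0 := by
      simp only [inner_sub_left, iad, ibd]; norm_num
    have h02 : inner ℝ (a - b) ((√2 / 2) • (a + b - d)) = 0 := by
      simp only [inner_smul_right, inner_add_right,
        inner_sub_left, inner_sub_right, iab, iad, ibd, iba, iaa, ibb]
      norm_num
    have h12 : inner ℝ d ((√2 / 2) • (a + b - d)) = 0 := by
      simp only [inner_smul_right, inner_add_right, inner_sub_right, ida, idb, idd]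
      norm_num
    intro i j hij
    fin_cases i <;> fin_cases j
    · exact absurd rfl hij
    · exact h01
    · exact h02
    · exact (real_inner_comm _ _).trans h01
    · exact absurd rfl hij
    · exact h12
    · exact (real_inner_comm _ _).trans h02
    · exact (real_inner_comm _ _).trans h12
    · exact absurd rfl hij

theorem exists_frame {p : Fin 4 → E} (h : ∀ i j, i ≠ j → dist (p i) (p j) = 1) :
    ∃ (o : E) (φ : E ≃ₗᵢ[ℝ] E), ∀ i, φ (p i - o) = vv i := by
  have hd : ∀ i j, i ≠ j → ‖p i - p j‖ = 1 := fun i j hij => by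
    rw [← dist_eq_norm]; exact h i j hij
  set a := p 0 - p 3 with ha
  set b := p 1 - p 3 with hb
  set d := p 2 - p 3 with hdd
  have hab : a - b = p 0 - p 1 := by rw [ha, hb]; abel
  have had : a - d = p 0 - p 2 := by rw [ha, hdd]; abel
  have hbd : b - d = p 1 - p 2 := by rw [hb, hdd]; abel
  have hO : Orthonormal ℝ ![a - b, d, (√2 / 2) • (a + b - d)] :=
    frm_ortho (hd 0 3 (by decide)) (hd 1 3 (by decide)) (hd 2 3 (by decide))
      (by rw [hab]; exact hd 0 1 (by decide)) (by rw [had]; exact hd 0 2 (by decide))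
      (by rw [hbd]; exact hd 1 2 (by decide))
  have hcard : Fintype.card (Fin 3) = Module.finrank ℝ E := by simp
  let B0 := basisOfOrthonormalOfCardEqFinrank hO hcard
  have hB0 : ⇑B0 = ![a - b, d, (√2 / 2) • (a + b - d)] :=
    coe_basisOfOrthonormalOfCardEqFinrank hO hcard
  have hOB : Orthonormal ℝ B0 := by rw [hB0]; exact hO
  let B := B0.toOrthonormalBasis hOB
  have hB : ⇑B = ![a - b, d, (√2 / 2) • (a + b - d)] := by
    rw [show (⇑B : Fin 3 → E) = ⇑B0 from Module.Basis.coe_toOrthonormalBasis B0 hOB, hB0]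
  let φ : E ≃ₗᵢ[ℝ] E := B.repr
  have e0 : φ (a - b) = pt 1 0 0 := by
    have h1 : B 0 = a - b := by rw [hB]; rfl
    have h2 : φ (B 0) = EuclideanSpace.single 0 (1 : ℝ) := B.repr_self 0
    rw [h1] at h2
    rw [h2]
    ext i
    fin_cases i <;> simp [pt]
  have e1 : φ d = pt 0 1 0 := by
    have h1 : B 1 = d := by rw [hB]; rfl
    have h2 : φ (B 1) = EuclideanSpace.single 1 (1 : ℝ) := B.repr_self 1
    rw [h1] at h2
    rw [h2]
    ext i
    fin_cases i <;> simp [pt]
  have e2 : φ ((√2 / 2) • (a + b - d)) = pt 0 0 1 := by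
    have h1 : B 2 = (√2 / 2) • (a + b - d) := by rw [hB]; rfl
    have h2 : φ (B 2) = EuclideanSpace.single 2 (1 : ℝ) := B.repr_self 2
    rw [h1] at h2
    rw [h2]
    ext i
    fin_cases i <;> simp [pt]
  have hs2 : √2 * √2 = 2 := Real.mul_self_sqrt (by norm_num)
  have hcc : √2 / 4 = cc / 2 := by
    unfold cc
    have : √2 ≠ 0 := by positivity
    field_simp
    nlinarith
  have key : ∀ (r s t : ℝ), φ (r • (a - b) + s • d + t • ((√2 / 2) • (a + b - d))) = pt r s t := by
    intro r s t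
    rw [map_add, map_add, map_smul, map_smul, map_smul, e0, e1, e2]
    ext i
    fin_cases i <;> simp [pt]
  refine ⟨(1 / 4 : ℝ) • (p 0 + p 1 + p 2 + p 3), φ, ?_⟩
  have hq : (√2 / 4) * (√2 / 2) = 1 / 4 := by nlinarith
  have hq' : (-(√2 / 4)) * (√2 / 2) = -(1 / 4) := by nlinarith
  have v0 : vv 0 = pt (1 / 2) 0 (√2 / 4) := by rw [hcc]; rfl
  have v1 : vv 1 = pt (-1 / 2) 0 (√2 / 4) := by rw [hcc]; rfl
  have v2 : vv 2 = pt 0 (1 / 2) (-(√2 / 4)) := by
    rw [hcc]
    change pt 0 (1 / 2) (-cc / 2) = _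
    rw [neg_div 2 cc]
  have v3 : vv 3 = pt 0 (-1 / 2) (-(√2 / 4)) := by
    rw [hcc]
    change pt 0 (-1 / 2) (-cc / 2) = _
    rw [neg_div 2 cc]
  intro i
  fin_cases i
  · change φ (p 0 - _) = vv 0
    rw [v0, ← key]
    congr 1
    rw [smul_smul (√2 / 4), hq, ha, hb, hdd]
    module
  · change φ (p 1 - _) = vv 1
    rw [v1, ← key]
    congr 1
    rw [smul_smul (√2 / 4), hq, ha, hb, hdd]
    module
  · change φ (p 2 - _) = vv 2
    rw [v2, ← key]
    congr 1
    rw [smul_smul (-(√2 / 4)), hq', ha, hb, hdd]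
    module
  · change φ (p 3 - _) = vv 3
    rw [v3, ← key]
    congr 1
    rw [smul_smul (-(√2 / 4)), hq', ha, hb, hdd]
    module

end Pool.Agent.MGE
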