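import Pool.Agent.MGE.Defs
import Pool.Agent.MGE.FRF
import Pool.Agent.MGE.SIC
import Pool.Agent.MGE.INV
import Pool.Agent.MGE.EDN
import Pool.Agent.MGE.CEL
/-!
ASM (50 lines). Sum over the six squares.
PROOF. si_cover for f = ed G (EDN). For each k: ed G (fr k (P z)) = ed (G ∘ fr k) (P z) (ed_comp), and G ∘ fr k satisfies SB
(SB_comp) and TG (TG_comp, fr_vv). cell. Sum of three, times 2.
-/
set_option autoImplicit false

open MeasureTheory Set Metric Pool.Agent.MEIS Pool.Agent.MSQ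

namespace Pool.Agent.MGE

theorem si_ed : ∃ C : ℝ, 0 ≤ C ∧ ∀ (G : E → ℝ) (R τ ε : ℝ), SB G R τ → 0 ≤ τ → 0 < ε → 8 * √ε ≤ 1 →
    TG G ε → SI (ed G) ≤ 6 * Es + C * √ε := by
  obtain ⟨C, hC, hcell⟩ := cell
  refine ⟨6 * C, by positivity, ?_⟩
  intro G R τ ε h hτ hε h8 hT
  have h1 := si_cover (ed_sm h) (ed_hom h) (fun x hx => ed_nonneg h hτ hx) (ed_even h)
  have h2 : ∀ k : Fin 3, ∫ z in RR, ed G (fr k (P z)) / lf z ^ 3 ≤ Es + C * √ε := by
    intro k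
    have e : ∀ z : ℝ × ℝ, ed G (fr k (P z)) = ed (fun y => G (fr k y)) (P z) := fun z =>
      (ed_comp h (fr k) (P_ne z)).symm
    simp only [e]
    exact hcell _ R τ ε (SB_comp h (fr k)) hτ hε h8 (TG_comp hT (fr k) (fr_vv k))
  have h3 : ∑ k : Fin 3, ∫ z in RR, ed G (fr k (P z)) / lf z ^ 3 ≤ ∑ _k : Fin 3, (Es + C * √ε) :=
    Finset.sum_le_sum fun k _ => h2 k
  rw [Finset.sum_const, Finset.card_univ, Fintype.card_fin, nsmul_eq_mul] at h3
  push_cast at h3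
  linarith

end Pool.Agent.MGE
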