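import Pool.Agent.MEIS.Defs
import Pool.Agent.MSQ.Defs
/-!
MGE: geometry of the exact case of the Meissner problem (MP_f10237_gt): a body of constant width 1 in
three-space containing the vertices of a regular tetrahedron of edge 1 has volume at least V*.
Definitions shared by all modules.
-/
set_option autoImplicit false

open MeasureTheory Set Metric Pool.Agent.MEIS Pool.Agent.MSQ

namespace Pool.Agent.MGE

noncomputable section

/-- the point with coordinates `a, b, c` -/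
def pt (a b c : ℝ) : E := WithLp.toLp 2 ![a, b, c]

/-- the chart: `(X,Y) ↦ (X,Y,1)` -/
def P (z : ℝ × ℝ) : E := pt z.1 z.2 1

/-- vertices of the regular tetrahedron of edge one centred at the origin -/
def vv : Fin 4 → E :=
  ![pt (1 / 2) 0 (cc / 2), pt (-1 / 2) 0 (cc / 2), pt 0 (1 / 2) (-cc / 2), pt 0 (-1 / 2) (-cc / 2)]

/-- the jet of `G` in the chart -/
def jG (G : E → ℝ) : Jet where
  f := fun z => G (P z)
  fX := fun z => pd 0 G (P z)
  fY := fun z => pd 1 G (P z)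
  fXX := fun z => pd 0 (pd 0 G) (P z)
  fXY := fun z => pd 0 (pd 1 G) (P z)
  fYY := fun z => pd 1 (pd 1 G) (P z)
  fXXX := fun z => pd 0 (pd 0 (pd 0 G)) (P z)
  fXXY := fun z => pd 0 (pd 0 (pd 1 G)) (P z)
  fXYY := fun z => pd 0 (pd 1 (pd 1 G)) (P z)
  fYYY := fun z => pd 1 (pd 1 (pd 1 G)) (P z)

/-- the density: mixed discriminant of `D²G` and `I - D²G` on the tangent plane, extended with degree 0 -/
def ed (G : E → ℝ) (x : E) : ℝ := 1 / 4 - ‖x‖ ^ 2 * sg (od G) x

/-- cross shaped region of the chart -/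
def RR : Set (ℝ × ℝ) :=
  {z | (|z.1| ≤ cc ∧ |z.2| ≤ √2) ∨ (|z.1| ≤ √2 ∧ |z.2| ≤ cc)}

/-- cone over a set of the chart -/
def Cn (A : Set (ℝ × ℝ)) : Set E := {x | 0 < x 2 ∧ (x 0 / x 2, x 1 / x 2) ∈ A}

/-- `G` is, up to `ε`, above the support function of the tetrahedron -/
def TG (G : E → ℝ) (ε : ℝ) : Prop := ∀ (i : Fin 4) (x : E), inner ℝ x (vv i) - ε * ‖x‖ ≤ G x

/-- reflection exchanging `vv i` and `vv j` -/
def rf (i j : Fin 4) : E ≃ₗᵢ[ℝ] E := (Submodule.span ℝ {vv i - vv j})ᗮ.reflection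

/-- three symmetries of the tetrahedron, one for each pair of opposite squares -/
def fr : Fin 3 → (E ≃ₗᵢ[ℝ] E) := ![LinearIsometryEquiv.refl ℝ E, rf 1 2, rf 1 3]

/-- the value of one square: `π arccos(1/3) / (4 √3)` -/
def Es : ℝ := Real.pi * Real.arccos (1 / 3) / (4 * √3)

/-- the density in the chart -/
def dn (J : Jet) (z : ℝ × ℝ) : ℝ :=
  lf z * (J.fXX z * (lJ.fYY z - J.fYY z) + J.fYY z * (lJ.fXX z - J.fXX z) -
    2 * J.fXY z * (lJ.fXY z - J.fXY z)) / 2

end

end Pool.Agent.MGE
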