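import Pool.Agent.MGE.Defs
import Pool.Agent.MEIS.MOL
import Pool.Agent.MEIS.SCA
import Pool.Agent.MEIS.SUP
import Pool.Agent.MEIS.HBA
import Pool.Agent.MEIS.SHB
import Pool.Agent.MEIS.JUN
import Pool.Agent.MEIS.TRN
import Pool.Agent.MGE.VV
import Pool.Agent.MGE.GVO
import Pool.Agent.MGE.ASM
/-!
LIM (130 lines). The exact case in standard position.
PROOF. C ⊆ closedBall 0 (4/5): for x ∈ C, dist x (vv i) ≤ 1 (CW_dist of MEIS), sum of squares: 4‖x‖² + 4·3/8 ≤ 4 (vv_sum,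
vv_norm_sq), so ‖x‖² ≤ 5/8 < 16/25. H = supp C: SH H (4/5) (supp_SH), Body H = C (body_supp), <x, vv i> ≤ H x (sup_le, inner
symmetric). For small ε > 0 exists_smooth: G, τ > 0, SB G (4/5+ε) τ, G ≤ H + ε‖x‖; then G x = ‖x‖ - G(-x) ≥ ‖x‖ - H(-x) - ε‖x‖
= H x - ε‖x‖ ≥ <x, vv i> - ε‖x‖: TG G ε. H x ≥ ‖x‖/5, so G ≤ (1+5ε) H, volume (Body G) ≤ ofReal ((1+5ε)^3) volume C
(volume_body_scale). volume_ge_ed, si_ed: ofReal (2π/3 - 3 Es - (C/2)√ε) ≤ ofReal ((1+5ε)^3) * volume C. Let ε → 0 (as in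
module GEN of MEIS: le_of_tendsto_of_tendsto; volume C < ⊤ by compactness). 3 Es = √3/4·π·arccos(1/3), i.e.
2π/3 - 3 Es = (2/3 - √3/4 arccos(1/3)) π.
-/
set_option autoImplicit false

open MeasureTheory Set Metric Pool.Agent.MEIS Pool.Agent.MSQ

namespace Pool.Agent.MGE

private theorem lim_ball {C : Set E} (h : CW C) (hv : ∀ i, vv i ∈ C) :
    C ⊆ closedBall (0 : E) (4 / 5) := by
  intro x hx
  rw [mem_closedBall_zero_iff]
  have hi : ∀ i, ‖x‖ ^ 2 - 2 * inner ℝ x (vv i) + 3 / 8 ≤ 1 := by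
    intro i
    have h1 := CW_dist h hx (hv i)
    have h2 : ‖x - vv i‖ ^ 2 = ‖x‖ ^ 2 - 2 * inner ℝ x (vv i) + ‖vv i‖ ^ 2 := by
      rw [@norm_sub_sq_real]
    have h3 : ‖x - vv i‖ ^ 2 ≤ 1 := by
      have := norm_nonneg (x - vv i)
      nlinarith
    rw [h2, vv_norm_sq] at h3
    exact h3
  have hs : inner ℝ x (vv 0) + inner ℝ x (vv 1) + inner ℝ x (vv 2) + inner ℝ x (vv 3) = (0 : ℝ) := by
    rw [← inner_add_right, ← inner_add_right, ← inner_add_right, vv_sum, inner_zero_right]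
  have h0 := hi 0
  have h1 := hi 1
  have h2 := hi 2
  have h3 := hi 3
  have hq : ‖x‖ ^ 2 ≤ (4 / 5 : ℝ) ^ 2 := by nlinarith
  exact le_of_sq_le_sq hq (by norm_num)

private theorem lim_step {H : E → ℝ} (h : SH H (4 / 5)) (hv : ∀ i x, inner ℝ x (vv i) ≤ H x)
    {K : ℝ} (hK : ∀ (G : E → ℝ) (R τ ε : ℝ), SB G R τ → 0 ≤ τ → 0 < ε → 8 * √ε ≤ 1 →
    TG G ε → SI (ed G) ≤ 6 * Es + K * √ε) {ε : ℝ} (hε : 0 < ε) (hε1 : ε < 1 / 64) :
    ENNReal.ofReal (2 * Real.pi / 3 - 1 / 2 * (6 * Es + K * √ε)) ≤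
      ENNReal.ofReal ((1 + 5 * ε) ^ 3) * volume (Body H) := by
  obtain ⟨G, τ, hτ, hG, hGH⟩ := exists_smooth h (by norm_num) hε
  have hsq : 8 * √ε ≤ 1 := by
    have h1 : √ε ≤ 1 / 8 := by
      rw [Real.sqrt_le_left (by norm_num)]
      norm_num
      linarith
    linarith
  have hTG : TG G ε := by
    intro i x
    have h1 := hG.wid x
    have h2 := hGH (-x)
    have h3 := h.wid x
    have h4 := hv i x
    rw [norm_neg] at h2
    linarith
  have hb := hK G _ τ ε hG hτ.le hε hsq hTG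
  have hvol := volume_ge_ed hG hτ (by linarith)
  refine le_trans (ENNReal.ofReal_le_ofReal ?_) (le_trans hvol ?_)
  · linarith
  · apply volume_body_scale
    · positivity
    · intro x
      have h1 := hGH x
      have h2 := SH_lower h x
      nlinarith

private theorem lim_val : 2 * Real.pi / 3 - 1 / 2 * (6 * Es) =
    (2 / 3 - √3 / 4 * Real.arccos (1 / 3)) * Real.pi := by
  have h3 : (√3 : ℝ) ≠ 0 := by positivity
  have h9 : (√3 : ℝ) ^ 2 = 3 := Real.sq_sqrt (by norm_num)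
  unfold Es
  have e : Real.pi * Real.arccos (1 / 3) / (4 * √3) = Real.pi * Real.arccos (1 / 3) * √3 / 12 := by
    rw [div_eq_div_iff (by positivity) (by norm_num)]
    have : Real.pi * Real.arccos (1 / 3) * √3 * (4 * √3) =
      Real.pi * Real.arccos (1 / 3) * 4 * (√3) ^ 2 := by ring
    rw [this, h9]
    ring
  rw [e]
  ring

theorem exact_std {C : Set E} (h : CW C) (hv : ∀ i, vv i ∈ C) :
    ENNReal.ofReal ((2 / 3 - √3 / 4 * Real.arccos (1 / 3)) * Real.pi) ≤ volume C := by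
  obtain ⟨K, hK0, hK⟩ := si_ed
  have hb := lim_ball h hv
  have hS : SH (supp C) (4 / 5) := supp_SH h hb
  have hB : Body (supp C) = C := body_supp h
  have hH : ∀ i x, inner ℝ x (vv i) ≤ supp C x := by
    intro i x
    rw [real_inner_comm]
    exact sup_le h.cpt x (hv i)
  rw [← lim_val, ← hB]
  have hev : ∀ᶠ ε : ℝ in nhdsWithin 0 (Ioi 0),
      ENNReal.ofReal (2 * Real.pi / 3 - 1 / 2 * (6 * Es + K * √ε)) ≤
        ENNReal.ofReal ((1 + 5 * ε) ^ 3) * volume (Body (supp C)) := by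
    filter_upwards [Ioo_mem_nhdsGT (show (0 : ℝ) < 1 / 64 by norm_num)] with ε hε
    exact lim_step hS hH hK hε.1 hε.2
  have hl : Filter.Tendsto (fun ε : ℝ =>
      ENNReal.ofReal (2 * Real.pi / 3 - 1 / 2 * (6 * Es + K * √ε)))
      (nhdsWithin 0 (Ioi 0)) (nhds (ENNReal.ofReal (2 * Real.pi / 3 - 1 / 2 * (6 * Es)))) := by
    have hc : Continuous (fun ε : ℝ =>
        ENNReal.ofReal (2 * Real.pi / 3 - 1 / 2 * (6 * Es + K * √ε))) :=
      ENNReal.continuous_ofReal.comp (by fun_prop)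
    have := (hc.tendsto 0).mono_left (nhdsWithin_le_nhds (s := Ioi (0 : ℝ)))
    simpa using this
  have hr : Filter.Tendsto (fun ε : ℝ =>
      ENNReal.ofReal ((1 + 5 * ε) ^ 3) * volume (Body (supp C)))
      (nhdsWithin 0 (Ioi 0)) (nhds (volume (Body (supp C)))) := by
    have hc : Continuous (fun ε : ℝ => ENNReal.ofReal ((1 + 5 * ε) ^ 3)) :=
      ENNReal.continuous_ofReal.comp (by fun_prop)
    have h0 := (hc.tendsto 0).mono_left (nhdsWithin_le_nhds (s := Ioi (0 : ℝ)))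
    have h1 : ENNReal.ofReal ((1 + 5 * 0) ^ 3) = 1 := by simp
    rw [h1] at h0
    have h2 := ENNReal.Tendsto.mul_const (b := volume (Body (supp C))) h0 (Or.inl one_ne_zero)
    simpa using h2
  exact le_of_tendsto_of_tendsto hl hr hev


end Pool.Agent.MGE
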