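import Pool.Agent.MGE.Defs
import Pool.Agent.MEIS.TRN
import Pool.Agent.MGE.LIM
import Pool.Agent.MGE.FRM
import Pool.Agent.MGE.ISO
/-!
EXC (40 lines). The exact case.
PROOF. exists_frame: o, φ. C' = φ '' ((fun x => x - o) '' C) is CW (CW_translate, CW_iso), contains vv i = φ (p i - o), has the same volume
(volume_iso; the translation as in module FIN of MEIS: volume_translate). exact_std.
-/
set_option autoImplicit false

open MeasureTheory Set Metric Pool.Agent.MEIS Pool.Agent.MSQ

namespace Pool.Agent.MGE

/-- A body of constant width one containing the vertices of a regular tetrahedron of edge one has volume at least `V*`. -/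
theorem exact_case {C : Set E} (h : CW C) {p : Fin 4 → E} (hp : ∀ i, p i ∈ C)
    (hd : ∀ i j, i ≠ j → dist (p i) (p j) = 1) :
    ENNReal.ofReal ((2 / 3 - √3 / 4 * Real.arccos (1 / 3)) * Real.pi) ≤ volume C := by
  obtain ⟨o, φ, hφ⟩ := exists_frame hd
  have h1 : CW ((fun x => x - o) '' C) := CW_translate h o
  have h2 : CW (φ '' ((fun x => x - o) '' C)) := CW_iso h1 φ
  have h3 : ∀ i, vv i ∈ φ '' ((fun x => x - o) '' C) := fun i =>
    ⟨p i - o, ⟨p i, hp i, rfl⟩, hφ i⟩
  have h4 := exact_std h2 h3
  rwa [volume_iso _ h1.cpt.measurableSet φ, volume_translate] at h4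

end Pool.Agent.MGE
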